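import Mathlib

set_option autoImplicit false

/-! Edge colouring of regular bipartite multigraphs, in the form of two partitions. -/

namespace Pool.Agent.Lib.MP_ec5f85_co

open Finset

variable {ι X Y : Type*}

/-- Every class of `P` on `S` has `k` elements. -/
def Reg [DecidableEq X] (S : Finset ι) (P : ι → X) (k : ℕ) : Prop :=
  ∀ e ∈ S, (S.filter fun e' => P e' = P e).card = k

lemma Reg.card_filter_mem [DecidableEq X] {S : Finset ι} {P : ι → X} {k : ℕ} (h : Reg S P k)
    (T : Finset X) (hT : T ⊆ S.image P) :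
    (S.filter fun e => P e ∈ T).card = T.card * k := by
  rw [Finset.card_eq_sum_card_fiberwise (f := P) (t := T)
    (fun e he => by simpa using (mem_filter.1 (mem_coe.1 he)).2)]
  rw [Finset.sum_congr rfl (g := fun _ => k), sum_const, smul_eq_mul]
  intro x hx
  obtain ⟨e, he, rfl⟩ := mem_image.1 (hT hx)
  rw [← h e he, filter_filter]
  congr 1
  ext e'
  simp only [mem_filter]
  constructor
  · exact fun h => ⟨h.1, h.2.2⟩
  · exact fun h => ⟨h.1, by rw [h.2]; exact hx, h.2⟩

lemma Reg.card_eq [DecidableEq X] {S : Finset ι} {P : ι → X} {k : ℕ} (h : Reg S P k) :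
    S.card = (S.image P).card * k := by
  rw [← h.card_filter_mem _ subset_rfl, filter_true_of_mem]
  exact fun e he => mem_image_of_mem _ he

lemma exists_matching [DecidableEq ι] [DecidableEq X] [DecidableEq Y] {S : Finset ι} {P : ι → X}
    {Q : ι → Y} {k : ℕ} (hP : Reg S P (k + 1)) (hQ : Reg S Q (k + 1)) :
    ∃ M ⊆ S, (∀ e ∈ S, (M.filter fun e' => P e' = P e).card = 1) ∧
      ∀ e ∈ S, (M.filter fun e' => Q e' = Q e).card = 1 := by
  let t : {x // x ∈ S.image P} → Finset Y := fun x => (S.filter fun e => P e = x.1).image Q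
  have hall : ∀ s : Finset {x // x ∈ S.image P}, s.card ≤ (s.biUnion t).card := by
    intro s
    have h1 := hP.card_filter_mem (s.map (Function.Embedding.subtype _)) (by
      intro x hx
      obtain ⟨y, _, rfl⟩ := mem_map.1 hx
      exact y.2)
    have h2 := hQ.card_filter_mem (s.biUnion t) (by
      intro y hy
      obtain ⟨x, _, hy⟩ := mem_biUnion.1 hy
      obtain ⟨e, he, rfl⟩ := mem_image.1 hy
      exact mem_image_of_mem _ (mem_filter.1 he).1)
    have h3 : (S.filter fun e => P e ∈ s.map (Function.Embedding.subtype _)) ⊆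
        S.filter fun e => Q e ∈ s.biUnion t := by
      intro e he
      obtain ⟨he, hx⟩ := mem_filter.1 he
      obtain ⟨y, hy, hy'⟩ := mem_map.1 hx
      refine mem_filter.2 ⟨he, mem_biUnion.2 ⟨y, hy, mem_image_of_mem _ (mem_filter.2 ⟨he, ?_⟩)⟩⟩
      exact hy'.symm
    have h4 := card_le_card h3
    rw [h1, h2, card_map] at h4
    exact Nat.le_of_mul_le_mul_right h4 (Nat.succ_pos k)
  obtain ⟨f, hf, hft⟩ := (Finset.all_card_le_biUnion_card_iff_exists_injective t).1 hall
  have hg : ∀ x : {x // x ∈ S.image P}, ∃ e ∈ S, P e = x.1 ∧ Q e = f x := by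
    intro x
    obtain ⟨e, he, h⟩ := mem_image.1 (hft x)
    exact ⟨e, (mem_filter.1 he).1, (mem_filter.1 he).2, h⟩
  choose g hgS hgP hgQ using hg
  have hsurj : ∀ e ∈ S, ∃ x, f x = Q e := by
    have hsub : univ.image f ⊆ S.image Q := by
      intro y hy
      obtain ⟨x, _, rfl⟩ := mem_image.1 hy
      rw [← hgQ]
      exact mem_image_of_mem _ (hgS x)
    have hc : (S.image Q).card ≤ (univ.image f).card := by
      rw [card_image_of_injective _ hf, card_univ, Fintype.card_coe]
      have := hP.card_eq.symm.trans hQ.card_eq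
      exact (Nat.eq_of_mul_eq_mul_right (Nat.succ_pos k) this).ge
    have := eq_of_subset_of_card_le hsub hc
    intro e he
    have h1 : Q e ∈ univ.image f := this ▸ mem_image_of_mem _ he
    obtain ⟨x, _, hx⟩ := mem_image.1 h1
    exact ⟨x, hx⟩
  refine ⟨univ.image g, ?_, ?_, ?_⟩
  · intro e he
    obtain ⟨x, _, rfl⟩ := mem_image.1 he
    exact hgS x
  · intro e he
    refine card_eq_one.2 ⟨g ⟨P e, mem_image_of_mem _ he⟩, ?_⟩
    ext e'
    simp only [mem_filter, mem_image, mem_univ, true_and, mem_singleton]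
    constructor
    · rintro ⟨⟨x, rfl⟩, hx⟩
      congr 1
      exact Subtype.ext ((hgP x).symm.trans hx)
    · rintro rfl
      exact ⟨⟨_, rfl⟩, hgP _⟩
  · intro e he
    obtain ⟨x, hx⟩ := hsurj e he
    refine card_eq_one.2 ⟨g x, ?_⟩
    ext e'
    simp only [mem_filter, mem_image, mem_univ, true_and, mem_singleton]
    constructor
    · rintro ⟨⟨y, rfl⟩, hy⟩
      congr 1
      exact hf ((hgQ y).symm.trans (hy.trans hx.symm))
    · rintro rfl
      exact ⟨⟨_, rfl⟩, (hgQ x).trans hx⟩

lemma Reg.sdiff [DecidableEq ι] [DecidableEq X] {S M : Finset ι} {P : ι → X} {k : ℕ}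
    (h : Reg S P (k + 1)) (hM : M ⊆ S)
    (h1 : ∀ e ∈ S, (M.filter fun e' => P e' = P e).card = 1) : Reg (S \ M) P k := by
  intro e he
  have he' := (mem_sdiff.1 he).1
  have : ((S \ M).filter fun e' => P e' = P e) =
      (S.filter fun e' => P e' = P e) \ (M.filter fun e' => P e' = P e) := by
    ext e'
    simp only [mem_filter, mem_sdiff]
    tauto
  rw [this, card_sdiff_of_subset (filter_subset_filter _ hM), h e he', h1 e he']
  rfl

lemma konig_aux [DecidableEq ι] [DecidableEq X] [DecidableEq Y] (P : ι → X) (Q : ι → Y) (k : ℕ) :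
    ∀ S : Finset ι, Reg S P k → Reg S Q k → ∃ c : ι → ℕ, (∀ e ∈ S, c e < k) ∧
      ∀ e ∈ S, ∀ e' ∈ S, (P e = P e' ∨ Q e = Q e') → c e = c e' → e = e' := by
  induction k with
  | zero =>
    intro S hP _
    have : ∀ e, e ∉ S := by
      intro e he
      have h0 := hP e he
      rw [card_eq_zero] at h0
      have : e ∈ S.filter fun e' => P e' = P e := mem_filter.2 ⟨he, rfl⟩
      rw [h0] at this
      exact notMem_empty _ this
    exact ⟨fun _ => 0, fun e he => (this e he).elim, fun e he => (this e he).elim⟩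
  | succ k ih =>
    intro S hP hQ
    obtain ⟨M, hM, h1, h2⟩ := exists_matching hP hQ
    obtain ⟨c, hc, hc'⟩ := ih (S \ M) (hP.sdiff hM h1) (hQ.sdiff hM h2)
    refine ⟨fun e => if e ∈ M then k else c e, ?_, ?_⟩
    · intro e he
      by_cases h : e ∈ M
      · simp [h]
      · simp only [h, if_false]
        exact (hc e (mem_sdiff.2 ⟨he, h⟩)).trans (Nat.lt_succ_self k)
    · intro e he e' he' hor hcc
      by_cases h : e ∈ M <;> by_cases h' : e' ∈ M
      · rcases hor with hor | hor
        · exact card_le_one.1 (h1 e he).le e (mem_filter.2 ⟨h, rfl⟩) e' (mem_filter.2 ⟨h', hor.symm⟩)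
        · exact card_le_one.1 (h2 e he).le e (mem_filter.2 ⟨h, rfl⟩) e' (mem_filter.2 ⟨h', hor.symm⟩)
      · simp only [h, h', if_true, if_false] at hcc
        have := hc e' (mem_sdiff.2 ⟨he', h'⟩)
        omega
      · simp only [h, h', if_true, if_false] at hcc
        have := hc e (mem_sdiff.2 ⟨he, h⟩)
        omega
      · simp only [h, h', if_false] at hcc
        exact hc' e (mem_sdiff.2 ⟨he, h⟩) e' (mem_sdiff.2 ⟨he', h'⟩) hor hcc

/-- Two partitions into classes of size `k` have a common rainbow colouring with `k` colours. -/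
lemma konig [Fintype ι] [DecidableEq X] [DecidableEq Y] (P : ι → X) (Q : ι → Y) (k : ℕ)
    (hP : Reg univ P k) (hQ : Reg univ Q k) : ∃ c : ι → Fin k,
      ∀ e e', (P e = P e' ∨ Q e = Q e') → c e = c e' → e = e' := by
  classical
  obtain ⟨c, hc, hc'⟩ := konig_aux P Q k univ hP hQ
  exact ⟨fun e => ⟨c e, hc e (mem_univ _)⟩, fun e e' h h' =>
    hc' e (mem_univ _) e' (mem_univ _) h (congrArg Fin.val h')⟩

end Pool.Agent.Lib.MP_ec5f85_co
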