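import Pool.Agent.Lib.MP_ec5f85_co.Bridge

set_option autoImplicit false

/-! A binary mask with no routing through `2 * N` levels of edges, for `N ≥ 8`. -/

namespace Pool.Agent.Lib.MP_ec5f85_co.Bin

open Finset

section
variable {ι : Type} [Fintype ι] {k : ℕ}

lemma forced2 (x : ι → Fin k) (Z Z' : ι → Prop) [DecidablePred Z] [DecidablePred Z'] (e0 e1 : ι)
    (h0 : Z e0) (h1 : ¬ Z e1) (h0' : ¬ Z' e0) (_h1' : Z' e1)
    (hr : ∀ e, e ≠ e0 → e ≠ e1 → (Z e ↔ Z' e))
    (hZ : ∀ v v', (univ.filter fun e => Z e ∧ x e = v).card =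
      (univ.filter fun e => Z e ∧ x e = v').card)
    (hZ' : ∀ v v', (univ.filter fun e => Z' e ∧ x e = v).card =
      (univ.filter fun e => Z' e ∧ x e = v').card) : x e0 = x e1 := by
  by_contra hne
  have a1 : (univ.filter fun e => Z' e ∧ x e = x e0) ⊂
      univ.filter fun e => Z e ∧ x e = x e0 := by
    refine (ssubset_iff_of_subset fun e he => ?_).2 ⟨e0, by simp [h0], by simp [h0']⟩
    have he := (mem_filter.1 he).2
    by_cases c0 : e = e0
    · simp [c0, h0]
    by_cases c1 : e = e1
    · exact (hne (c1 ▸ he.2).symm).elim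
    · exact mem_filter.2 ⟨mem_univ _, (hr e c0 c1).2 he.1, he.2⟩
  have a2 : (univ.filter fun e => Z e ∧ x e = x e1) ⊆
      univ.filter fun e => Z' e ∧ x e = x e1 := by
    intro e he
    have he := (mem_filter.1 he).2
    by_cases c0 : e = e0
    · exact (hne (c0 ▸ he.2)).elim
    by_cases c1 : e = e1
    · exact (h1 (c1 ▸ he.1)).elim
    · exact mem_filter.2 ⟨mem_univ _, (hr e c0 c1).1 he.1, he.2⟩
  have b1 := card_lt_card a1
  have b2 := card_le_card a2
  have b3 := hZ (x e0) (x e1)
  have b4 := hZ' (x e0) (x e1)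
  omega

end

/-- Names of the 32 atoms. -/
abbrev T := Fin 2 × Fin 2 × Fin 2 × Fin 2 × Fin 2

/-- The number of an atom: four times its row plus its place in the row. -/
def enc (y : T) : ℕ := 16 * y.2.2.1 + 8 * y.2.2.2.1 + 4 * y.2.2.2.2 + 2 * y.1 + y.2.1

/-- The image of each atom: eight times its column plus its place in the column. -/
def tab : List ℕ :=
  [0, 24, 25, 26, 8, 27, 28, 29, 16, 1, 30, 31, 2, 3, 4, 5, 6, 7, 9, 10, 11, 12, 13, 14, 15,
    17, 18, 19, 20, 21, 22, 23]

/-- A binary digit. -/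
def bit (m i : ℕ) : Fin 2 := ⟨m / 2 ^ i % 2, Nat.mod_lt _ (by norm_num)⟩

/-- The permutation of the atoms. -/
def phi (y : T) : T :=
  (bit (tab.getD (enc y) 0) 4, bit (tab.getD (enc y) 0) 3, bit (tab.getD (enc y) 0) 2,
    bit (tab.getD (enc y) 0) 1, bit (tab.getD (enc y) 0) 0)

/-- The column of an atom. -/
def col (y : T) : Fin 2 × Fin 2 := ((phi y).1, (phi y).2.1)

lemma phi_inj : ∀ y y' : T, phi y = phi y' → y = y' := by decide +kernel

lemma col_row : ∀ y : T, col y = (1, 1) →
    y.2.2 = (0, 0, 0) ∨ y.2.2 = (0, 0, 1) ∨ y.2.2 = (0, 1, 0) := by decide +kernel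

/-- The three special atoms. -/
def g (i : Fin 3) : T :=
  if i = 0 then (0, 0, 0, 0, 0) else if i = 1 then (0, 0, 0, 0, 1) else (0, 0, 0, 1, 0)

lemma g_col : ∀ i j : Fin 3, col (g i) = col (g j) → i = j := by decide +kernel
lemma g_row : ∀ i j : Fin 3, (g i).2.2 = (g j).2.2 → i = j := by decide +kernel
lemma g_col_ne : ∀ i : Fin 3, col (g i) ≠ (1, 1) := by decide +kernel
lemma g_mem : ∀ i : Fin 3,
    (g i).2.2 = (0, 0, 0) ∨ (g i).2.2 = (0, 0, 1) ∨ (g i).2.2 = (0, 1, 0) := by decide +kernel
lemma succ_ne : ∀ i : Fin 3, i + 1 ≠ i ∧ i + 1 + 1 ≠ i + 1 ∧ i ≠ i + 1 + 1 := by decide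
lemma three : ∀ i j : Fin 3, j ≠ i + 1 → j ≠ i → j + 1 = i := by decide

/-- The items. -/
abbrev I (N : ℕ) := (Fin N → Fin 2) × Fin 2

variable {N : ℕ}

/-- The left word of an item. -/
def lw (e : I N) (j : ℕ) : Fin 2 := if h : j < N then e.1 ⟨j, h⟩ else 0

/-- The atom of an item. -/
def atom (e : I N) : T := (lw e (N - 5), lw e (N - 4), lw e (N - 3), lw e (N - 2), lw e (N - 1))

/-- The right word of an item before the exchange. -/
def rw0 (e : I N) (j : ℕ) : Fin 2 :=
  if j = 0 then (phi (atom e)).1 else if j = 1 then (phi (atom e)).2.1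
  else if j = 2 then (phi (atom e)).2.2.1 else if j = 3 then (phi (atom e)).2.2.2.1
  else if j = 4 then (phi (atom e)).2.2.2.2 else lw e (j - 5)

/-- An item in a given atom. -/
def mk (N : ℕ) (y : T) : I N :=
  (fun j => if (j : ℕ) + 5 = N then y.1 else if (j : ℕ) + 4 = N then y.2.1
    else if (j : ℕ) + 3 = N then y.2.2.1 else if (j : ℕ) + 2 = N then y.2.2.2.1
    else y.2.2.2.2, 0)

lemma atom_mk (hN : 8 ≤ N) (y : T) : atom (mk N y) = y := by
  obtain ⟨M, rfl⟩ : ∃ M, N = M + 5 := ⟨N - 5, by omega⟩
  obtain ⟨a, b, c, d, e⟩ := y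
  simp [atom, mk, lw]

lemma lw_inj {e e' : I N} (h : ∀ j < N, lw e j = lw e' j) (h2 : e.2 = e'.2) : e = e' := by
  refine Prod.ext (funext fun j => ?_) h2
  simpa [lw] using h j j.2

lemma atom_of_rw0 {e e' : I N} (h : ∀ j < 5, rw0 e j = rw0 e' j) : atom e = atom e' := by
  refine phi_inj _ _ ?_
  have h0 := h 0 (by omega)
  have h1 := h 1 (by omega)
  have h2 := h 2 (by omega)
  have h3 := h 3 (by omega)
  have h4 := h 4 (by omega)
  simp only [rw0] at h0 h1 h2 h3 h4
  norm_num at h0 h1 h2 h3 h4
  exact Prod.ext h0 (Prod.ext h1 (Prod.ext h2 (Prod.ext h3 h4)))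

lemma rw0_inj (hN : 8 ≤ N) {e e' : I N}
    (h : ∀ j < N, rw0 e j = rw0 e' j) (h2 : e.2 = e'.2) : e = e' := by
  have ha := atom_of_rw0 (e := e) (e' := e') fun j hj => h j (by omega)
  simp only [atom, Prod.mk.injEq] at ha
  obtain ⟨a1, a2, a3, a4, a5⟩ := ha
  refine lw_inj (fun j hj => ?_) h2
  by_cases c : j + 5 < N
  · have := h (j + 5) c
    simpa [rw0] using this
  · have : j = N - 5 ∨ j = N - 4 ∨ j = N - 3 ∨ j = N - 2 ∨ j = N - 1 := by omega
    rcases this with rfl | rfl | rfl | rfl | rfl <;> assumption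

/-- The three special items. -/
def p (N : ℕ) (i : Fin 3) : I N := mk N (g i)

lemma p_inj (hN : 8 ≤ N) {i j : Fin 3} (h : p N i = p N j) : i = j := by
  have := congrArg atom h
  rw [p, p, atom_mk hN, atom_mk hN] at this
  exact g_row _ _ (by rw [this])

/-- The cyclic exchange of the three special items. -/
def cyc (N : ℕ) : Equiv.Perm (I N) := Equiv.swap (p N 0) (p N 2) * Equiv.swap (p N 0) (p N 1)

lemma cyc_p (hN : 8 ≤ N) (i : Fin 3) : cyc N (p N i) = p N (i + 1) := by
  have h01 : p N 0 ≠ p N 1 := fun h => absurd (p_inj hN h) (by decide)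
  have h02 : p N 0 ≠ p N 2 := fun h => absurd (p_inj hN h) (by decide)
  have h12 : p N 1 ≠ p N 2 := fun h => absurd (p_inj hN h) (by decide)
  have : i = 0 ∨ i = 1 ∨ i = 2 := by omega
  rcases this with rfl | rfl | rfl
  · rw [cyc, Equiv.Perm.mul_apply, Equiv.swap_apply_left,
      Equiv.swap_apply_of_ne_of_ne h01.symm h12]
    rfl
  · rw [cyc, Equiv.Perm.mul_apply, Equiv.swap_apply_right, Equiv.swap_apply_left]
    rfl
  · rw [cyc, Equiv.Perm.mul_apply, Equiv.swap_apply_of_ne_of_ne h02.symm h12.symm,
      Equiv.swap_apply_right]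
    rfl

lemma cyc_fix {e : I N} (h : ∀ i, e ≠ p N i) : cyc N e = e := by
  rw [cyc, Equiv.Perm.mul_apply, Equiv.swap_apply_of_ne_of_ne (h 0) (h 1),
    Equiv.swap_apply_of_ne_of_ne (h 0) (h 2)]

/-- A function of the atom that separates the special atoms forces equal letters. -/
lemma forced3 (hN : 8 ≤ N) {X : Type} [DecidableEq X] (f : T → X)
    (hf : ∀ i j : Fin 3, f (g i) = f (g j) → i = j) (x : I N → Fin 2) (i : Fin 3)
    (hZ : ∀ v v', (univ.filter fun e => f (atom e) = f (g (i + 1)) ∧ x e = v).card =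
      (univ.filter fun e => f (atom e) = f (g (i + 1)) ∧ x e = v').card)
    (hZ' : ∀ v v', (univ.filter fun e => f (atom (cyc N e)) = f (g (i + 1)) ∧ x e = v).card =
      (univ.filter fun e => f (atom (cyc N e)) = f (g (i + 1)) ∧ x e = v').card) :
    x (p N (i + 1)) = x (p N i) := by
  have ha : ∀ j, atom (p N j) = g j := fun j => atom_mk hN _
  refine forced2 x (fun e => f (atom e) = f (g (i + 1)))
    (fun e => f (atom (cyc N e)) = f (g (i + 1))) _ _ (by rw [ha]) ?_ ?_ ?_ ?_ hZ hZ'
  · rw [ha]
    exact fun h => (succ_ne i).1 (hf _ _ h).symm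
  · rw [cyc_p hN, ha]
    exact fun h => (succ_ne i).2.1 (hf _ _ h)
  · rw [cyc_p hN, ha]
  · intro e h0 h1
    by_cases c : ∃ j, e = p N j
    · obtain ⟨j, rfl⟩ := c
      have hj : j + 1 = i := three i j (fun h => h0 (by rw [h])) (fun h => h1 (by rw [h]))
      rw [cyc_p hN, ha, ha, hj]
      refine iff_of_false (fun h => h0 (by rw [hf _ _ h])) fun h => (succ_ne i).1 (hf _ _ h).symm
    · rw [cyc_fix fun j h => c ⟨j, h⟩]

theorem no_route (hN : 8 ≤ N) :
    ∃ a b : I N → ℕ → Fin 2, Fib a N ∧ Fib b N ∧ ¬ Route a b N (2 * N) := by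
  have hc : Fintype.card (I N) = 2 ^ (N + 1) := by simp [pow_succ]
  refine ⟨lw, fun e => rw0 (cyc N e), ?_, ?_, ?_⟩
  · exact reg_of_inj hc _ (fun e => e.2) fun e e' h1 h2 =>
      lw_inj (fun j hj => congrFun h1 ⟨j, hj⟩) h2
  · exact reg_of_inj hc _ (fun e => (cyc N e).2) fun e e' h1 h2 =>
      (cyc N).injective (rw0_inj hN (fun j hj => congrFun h1 ⟨j, hj⟩) h2)
  rintro ⟨l, hl1, hl2, hl3⟩
  beta_reduce at hl2
  have hx : ∀ t, N + 1 ≤ t → t + 3 ≤ 2 * N → ∀ i : Fin 3, l (p N (i + 1)) t = l (p N i) t := by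
    intro t ht ht' i
    by_cases c : t + 5 ≤ 2 * N
    · refine forced3 hN col g_col (fun e => l e t) i ?_ ?_
      · have := (hl3 (N - 5) (by omega)).bal hc (t - (N - 5)) (by omega)
          (fun e => col (atom e) = col (g (i + 1))) (by
            intro e e' h hz
            have key : ∀ d, d < 5 → lw e (N - 5 + d) = lw e' (N - 5 + d) := by
              intro d hd
              have := h d (by omega) (by omega)
              rwa [hl1 _ _ (by omega), hl1 _ _ (by omega)] at this
            have h0 := key 0 (by omega)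
            have h1 := key 1 (by omega)
            have h2 := key 2 (by omega)
            have h3 := key 3 (by omega)
            have h4 := key 4 (by omega)
            rw [add_zero] at h0
            rw [show N - 5 + 1 = N - 4 by omega] at h1
            rw [show N - 5 + 2 = N - 3 by omega] at h2
            rw [show N - 5 + 3 = N - 2 by omega] at h3
            rw [show N - 5 + 4 = N - 1 by omega] at h4
            have : atom e' = atom e := by simp only [atom, h0, h1, h2, h3, h4]
            rw [this, hz])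
        rwa [Nat.add_sub_cancel' (by omega)] at this
      · have := (hl3 (N + 1) (by omega)).bal hc (t - (N + 1)) (by omega)
          (fun e => col (atom (cyc N e)) = col (g (i + 1))) (by
            intro e e' h hz
            have h0 := h (N - 1) (by omega) (by omega)
            have h1 := h N (by omega) (by omega)
            rw [show N + 1 + (N - 1) = 2 * N + 0 by omega, hl2 _ _ (by omega),
              hl2 _ _ (by omega)] at h0
            rw [show N + 1 + N = 2 * N + 1 by omega, hl2 _ _ (by omega),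
              hl2 _ _ (by omega)] at h1
            simp only [rw0] at h0 h1
            norm_num at h0 h1
            rw [← hz]
            simp only [col, h0, h1])
        rwa [Nat.add_sub_cancel' (by omega)] at this
    · refine forced3 hN (fun y => y.2.2) g_row (fun e => l e t) i ?_ ?_
      · have := (hl3 (N - 3) (by omega)).bal hc (t - (N - 3)) (by omega)
          (fun e => (atom e).2.2 = (g (i + 1)).2.2) (by
            intro e e' h hz
            have key : ∀ d, d < 3 → lw e (N - 3 + d) = lw e' (N - 3 + d) := by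
              intro d hd
              have := h d (by omega) (by omega)
              rwa [hl1 _ _ (by omega), hl1 _ _ (by omega)] at this
            have h0 := key 0 (by omega)
            have h1 := key 1 (by omega)
            have h2 := key 2 (by omega)
            rw [add_zero] at h0
            rw [show N - 3 + 1 = N - 2 by omega] at h1
            rw [show N - 3 + 2 = N - 1 by omega] at h2
            rw [← hz]
            simp only [atom, h0, h1, h2])
        rwa [Nat.add_sub_cancel' (by omega)] at this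
      · have := (hl3 (N + 4) (by omega)).bal hc (t - (N + 4)) (by omega)
          (fun e => (atom (cyc N e)).2.2 = (g (i + 1)).2.2) (by
            intro e e' h hz
            have : atom (cyc N e) = atom (cyc N e') := atom_of_rw0 fun d hd => by
              have := h (N - 4 + d) (by omega) (by omega)
              rwa [show N + 4 + (N - 4 + d) = 2 * N + d by omega, hl2 _ _ (by omega),
                hl2 _ _ (by omega)] at this
            rw [← this, hz])
        rwa [Nat.add_sub_cancel' (by omega)] at this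
  have hx0 : ∀ t, N + 1 ≤ t → t + 3 ≤ 2 * N → ∀ i : Fin 3, l (p N i) t = l (p N 0) t := by
    intro t ht ht' i
    have h1 := hx t ht ht' 0
    have h2 := hx t ht ht' 1
    have : i = 0 ∨ i = 1 ∨ i = 2 := by omega
    rcases this with rfl | rfl | rfl
    · rfl
    · exact h1
    · exact h2.trans h1
  choose q hq using fun u : Fin 2 × Fin 2 => (hl3 (N + 1) (by omega)).surj hc
    fun j => if j + 4 ≤ N then l (p N 0) (N + 1 + j) else if j + 3 = N then u.1
      else if j + 2 = N then u.2 else 1
  have hqc : ∀ u, col (atom (cyc N (q u))) = (1, 1) := by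
    intro u
    have h0 := hq u (N - 1) (by omega)
    have h1 := hq u N (by omega)
    rw [show N + 1 + (N - 1) = 2 * N + 0 by omega, hl2 _ _ (by omega), if_neg (by omega),
      if_neg (by omega), if_neg (by omega)] at h0
    rw [show N + 1 + N = 2 * N + 1 by omega, hl2 _ _ (by omega), if_neg (by omega),
      if_neg (by omega), if_neg (by omega)] at h1
    simp only [rw0] at h0 h1
    norm_num at h0 h1
    simp only [col, h0, h1]
  have hqp : ∀ u i, q u ≠ p N i := by
    intro u i h
    have := hqc u
    rw [h, cyc_p hN, p, atom_mk hN] at this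
    exact g_col_ne _ this
  let P : (Fin 2 × Fin 2) ⊕ Fin 3 → I N := Sum.elim q (p N)
  have hPinj : Function.Injective P := by
    rintro (u | i) (u' | i') h
    · have h' : q u = q u' := h
      have h0 := hq u (N - 3) (by omega)
      have h1 := hq u (N - 2) (by omega)
      have h2 := hq u' (N - 3) (by omega)
      have h3 := hq u' (N - 2) (by omega)
      rw [if_neg (by omega), if_pos (by omega)] at h0 h2
      rw [if_neg (by omega), if_neg (by omega), if_pos (by omega)] at h1 h3
      rw [h', h2] at h0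
      rw [h', h3] at h1
      rw [Prod.ext h0.symm h1.symm]
    · exact (hqp u i' h).elim
    · exact (hqp u' i h.symm).elim
    · rw [p_inj hN h]
  have hPw : ∀ z t, N + 1 ≤ t → t + 3 ≤ 2 * N → l (P z) t = l (p N 0) t := by
    rintro (u | i) t ht ht'
    · have := hq u (t - (N + 1)) (by omega)
      rwa [if_pos (by omega), Nat.add_sub_cancel' ht] at this
    · exact hx0 t ht ht' i
  have hProw : ∀ z, (atom (P z)).2.2 = (0, 0, 0) ∨ (atom (P z)).2.2 = (0, 0, 1) ∨
      (atom (P z)).2.2 = (0, 1, 0) := by
    rintro (u | i)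
    · have := hqc u
      rw [cyc_fix (hqp u)] at this
      exact col_row _ this
    · have : atom (P (Sum.inr i)) = g i := atom_mk hN _
      rw [this]
      exact g_mem i
  have hle := card_le_card_of_injOn
    (s := (univ : Finset ((Fin 2 × Fin 2) ⊕ Fin 3)))
    (t := ({(0, 0, 0), (0, 0, 1), (0, 1, 0)} : Finset (Fin 2 × Fin 2 × Fin 2)) ×ˢ
      (univ : Finset (Fin 2)))
    (fun z => ((atom (P z)).2.2, l (P z) N))
    (fun z _ => by
      simp only [coe_product, Set.mem_prod, mem_coe, mem_insert, mem_singleton, mem_univ, and_true]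
      exact hProw z)
    (fun z _ z' _ h => by
      have h1 : (atom (P z)).2.2 = (atom (P z')).2.2 := congrArg Prod.fst h
      have h2 : l (P z) N = l (P z') N := congrArg Prod.snd h
      simp only [atom, Prod.mk.injEq] at h1
      obtain ⟨a1, a2, a3⟩ := h1
      refine hPinj (hl3 (N - 3) (by omega) _ _ fun j hj => ?_)
      by_cases c : j < 3
      · rw [hl1 _ _ (by omega), hl1 _ _ (by omega)]
        have : j = 0 ∨ j = 1 ∨ j = 2 := by omega
        rcases this with rfl | rfl | rfl
        · exact a1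
        · rwa [show N - 3 + 1 = N - 2 by omega]
        · rwa [show N - 3 + 2 = N - 1 by omega]
      · by_cases c' : j = 3
        · rwa [show N - 3 + j = N by omega]
        · rw [hPw z _ (by omega) (by omega), hPw z' _ (by omega) (by omega)])
  revert hle
  decide

theorem not_rearr {n : ℕ} (hn : 9 ≤ n) : ¬ Rearrangeable 2 n (2 * (n - 1)) := by
  intro h
  obtain ⟨a, b, ha, hb, hr⟩ := no_route (N := n - 1) (by omega)
  exact hr (route_of_rearr (by omega) h _ (by simp [pow_succ]) a b ha hb)

theorem stages_lower {n : ℕ} (hn : 9 ≤ n) : 2 * n ≤ stages 2 n := by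
  have hmem : 3 * n - 3 ∈ {r : ℕ | 2 ≤ r ∧ Rearrangeable 2 n (r - 1)} :=
    ⟨by omega, rearr_upper (by omega)⟩
  by_contra hlt
  have h := Nat.sInf_mem ⟨_, hmem⟩
  refine not_rearr hn (rearr_mono (by omega) ?_ h.2)
  unfold stages at hlt
  omega

end Pool.Agent.Lib.MP_ec5f85_co.Bin
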