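import Mathlib

set_option autoImplicit false

namespace Pool.Agent.Lib.MP_ec5f85_co

/-- The graph `(SE(k,n))^m` with `m + 1` stages. A vertex is a pair (stage, label), the label
lying in `{0, …, k^(n-1) - 1}`; the vertices `(s, i)` and `(s + 1, j)` are adjacent iff
`(j - k i) mod k^(n-1) < k`, and there are no other edges. -/
def SE (k n m : ℕ) : SimpleGraph (Fin (m + 1) × Fin (k ^ (n - 1))) :=
  SimpleGraph.fromRel fun u v => (v.1 : ℕ) = (u.1 : ℕ) + 1 ∧
    (((v.2 : ℕ) : ℤ) - (k : ℤ) * ((u.2 : ℕ) : ℤ)) % (k : ℤ) ^ (n - 1) < (k : ℤ)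

/-- `(SE(k,n))^m` is rearrangeable: for every mask, i.e. every `k`-regular bipartite multigraph
between the first and the last stage (edge set `E`, end maps `L` and `R`), there are pairwise
edge-disjoint paths, one for each edge of the mask, joining its ends. -/
def Rearrangeable (k n m : ℕ) : Prop :=
  ∀ (E : Type) [Fintype E] (L R : E → Fin (k ^ (n - 1))),
    (∀ i, (Finset.univ.filter fun e => L e = i).card = k) →
    (∀ j, (Finset.univ.filter fun e => R e = j).card = k) →
    ∃ p : ∀ e : E, (SE k n m).Walk (0, L e) (Fin.last m, R e),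
      (∀ e, (p e).IsPath) ∧ ∀ e e', e ≠ e' → List.Disjoint (p e).edges (p e').edges

/-- `r(k,n)`: the least `r ≥ 2` such that `(SE(k,n))^(r-1)` is rearrangeable. -/
noncomputable def stages (k n : ℕ) : ℕ :=
  sInf {r : ℕ | 2 ≤ r ∧ Rearrangeable k n (r - 1)}

end Pool.Agent.Lib.MP_ec5f85_co
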