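import Pool.Agent.Lib.MP_ec5f85_co.Lower
import Pool.Agent.Lib.MP_ec5f85_co.Defs

set_option autoImplicit false

/-! From paths in the multistage graph to words and back. -/

namespace Pool.Agent.Lib.MP_ec5f85_co

open Finset

variable {k : ℕ} [NeZero k]

/-- The base-`k` digits of a label, most significant first. -/
def dig {N : ℕ} (i : Fin (k ^ N)) (j : ℕ) : Fin k :=
  ⟨i / k ^ (N - 1 - j) % k, Nat.mod_lt _ (NeZero.pos k)⟩

lemma eq_of_digits : ∀ (M x y : ℕ), x < k ^ M → y < k ^ M →
    (∀ d < M, x / k ^ d % k = y / k ^ d % k) → x = y := by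
  intro M
  induction M with
  | zero => intro x y hx hy _; simp at hx hy; omega
  | succ M ih =>
    intro x y hx hy h
    have h0 := h 0 (Nat.succ_pos M)
    simp only [pow_zero, Nat.div_one] at h0
    have h1 : x / k = y / k := by
      refine ih _ _ ((Nat.div_lt_iff_lt_mul (NeZero.pos k)).2 (by rwa [← pow_succ]))
        ((Nat.div_lt_iff_lt_mul (NeZero.pos k)).2 (by rwa [← pow_succ])) fun d hd => ?_
      rw [Nat.div_div_eq_div_mul, Nat.div_div_eq_div_mul, ← pow_succ']
      exact h (d + 1) (by omega)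
    rw [← Nat.div_add_mod x k, ← Nat.div_add_mod y k, h0, h1]

lemma dig_inj {N : ℕ} {i i' : Fin (k ^ N)} (h : ∀ j < N, dig i j = dig i' j) : i = i' := by
  refine Fin.ext (eq_of_digits N _ _ i.2 i'.2 fun d hd => ?_)
  have := congrArg Fin.val (h (N - 1 - d) (by omega))
  have h1 : N - 1 - (N - 1 - d) = d := by omega
  simpa [dig, h1] using this

lemma dig_surj (N : ℕ) (w : ℕ → Fin k) : ∃ i : Fin (k ^ N), ∀ j < N, dig i j = w j := by
  have hb : Function.Bijective fun i : Fin (k ^ N) => fun j : Fin N => dig i j := by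
    rw [Fintype.bijective_iff_injective_and_card]
    exact ⟨fun i i' h => dig_inj fun j hj => congrFun h ⟨j, hj⟩, by simp⟩
  obtain ⟨i, hi⟩ := hb.2 fun j => w j
  exact ⟨i, fun j hj => congrFun hi ⟨j, hj⟩⟩

lemma adj_iff_div {M : ℕ} (i j : ℕ) (hj : j < k ^ (M + 1)) :
    ((j : ℤ) - (k : ℤ) * (i : ℤ)) % (k : ℤ) ^ (M + 1) < (k : ℤ) ↔ j / k = i % k ^ M := by
  have hk : 0 < k := NeZero.pos k
  have hT : 0 < k ^ M := Nat.pow_pos hk
  set r := i % k ^ M with hr
  have hrT : r < k ^ M := Nat.mod_lt _ hT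
  have hi : (i : ℤ) = (k : ℤ) ^ M * (i / k ^ M : ℕ) + r := by
    exact_mod_cast (Nat.div_add_mod i (k ^ M)).symm
  have h1 : (j : ℤ) - k * i = (j - k * r) + (k : ℤ) ^ (M + 1) * (-(i / k ^ M : ℕ)) := by
    rw [pow_succ]
    linear_combination (-(k : ℤ)) * hi
  rw [h1, Int.add_mul_emod_self_left]
  have h2 : k * r + k ≤ k ^ (M + 1) := by
    rw [pow_succ']
    exact (Nat.mul_succ k r).symm.le.trans (Nat.mul_le_mul_left k hrT)
  have h2' : (k : ℤ) * r + k ≤ (k : ℤ) ^ (M + 1) := by exact_mod_cast h2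
  have hj' : (j : ℤ) < (k : ℤ) ^ (M + 1) := by exact_mod_cast hj
  have hkr : (0 : ℤ) ≤ (k : ℤ) * r := by positivity
  have hj0 : (0 : ℤ) ≤ j := by positivity
  have h3 : j / k = r ↔ (k : ℤ) * r ≤ j ∧ (j : ℤ) < k * r + k := by
    rw [Nat.div_eq_iff hk, mul_comm r k]
    constructor
    · rintro ⟨h, h'⟩
      exact ⟨by exact_mod_cast h, by
        have : j < k * r + k := by omega
        exact_mod_cast this⟩
    · rintro ⟨h, h'⟩
      have h4 : k * r ≤ j := by exact_mod_cast h
      have h5 : j < k * r + k := by exact_mod_cast h'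
      omega
  rw [h3]
  by_cases c : (k : ℤ) * r ≤ j
  · rw [Int.emod_eq_of_lt (by linarith) (by linarith)]
    constructor
    · exact fun h => ⟨c, by linarith⟩
    · exact fun h => by linarith [h.2]
  · rw [← Int.add_emod_right, Int.emod_eq_of_lt (by linarith) (by linarith)]
    constructor
    · intro h
      linarith
    · exact fun h => (c h.1).elim

lemma adj_iff_dig {N : ℕ} (hN : 1 ≤ N) (i j : Fin (k ^ N)) :
    (((j : ℕ) : ℤ) - (k : ℤ) * ((i : ℕ) : ℤ)) % (k : ℤ) ^ N < (k : ℤ) ↔
      ∀ t, t + 1 < N → dig j t = dig i (t + 1) := by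
  obtain ⟨M, rfl⟩ : ∃ M, N = M + 1 := ⟨N - 1, by omega⟩
  rw [adj_iff_div _ _ j.2]
  have hk : 0 < k := NeZero.pos k
  have key : ∀ d < M, (i : ℕ) % k ^ M / k ^ d % k = i / k ^ d % k := by
    intro d hd
    generalize (i : ℕ) = x
    obtain ⟨c, rfl⟩ : ∃ c, M = d + (c + 1) := ⟨M - d - 1, by omega⟩
    rw [pow_add, Nat.mod_mul_right_div_self, Nat.mod_mod_of_dvd]
    exact dvd_pow_self k (by omega)
  constructor
  · intro h t ht
    refine Fin.ext ?_
    have h1 : M + 1 - 1 - t = (M + 1 - 1 - (t + 1)) + 1 := by omega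
    simp only [dig]
    rw [h1, pow_succ' k (M + 1 - 1 - (t + 1)), ← Nat.div_div_eq_div_mul, h, key _ (by omega)]
  · intro h
    refine eq_of_digits (k := k) M _ _
      ((Nat.div_lt_iff_lt_mul hk).2 (by rw [← pow_succ]; exact j.2))
      (Nat.mod_lt _ (Nat.pow_pos hk)) fun d hd => ?_
    have := congrArg Fin.val (h (M - 1 - d) (by omega))
    have h1 : M + 1 - 1 - (M - 1 - d) = d + 1 := by omega
    have h2 : M + 1 - 1 - (M - 1 - d + 1) = d := by omega
    simp only [dig, h1, h2] at this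
    rw [key d hd, Nat.div_div_eq_div_mul, ← pow_succ', this]

lemma SE_adj {n m : ℕ} (hn : 2 ≤ n) (u v : Fin (m + 1) × Fin (k ^ (n - 1))) :
    (SE k n m).Adj u v ↔
      ((v.1 : ℕ) = u.1 + 1 ∧ ∀ t, t + 1 < n - 1 → dig v.2 t = dig u.2 (t + 1)) ∨
      ((u.1 : ℕ) = v.1 + 1 ∧ ∀ t, t + 1 < n - 1 → dig u.2 t = dig v.2 (t + 1)) := by
  rw [SE, SimpleGraph.fromRel_adj, adj_iff_dig (by omega), adj_iff_dig (by omega)]
  refine and_iff_right_of_imp ?_
  rintro (h | h) rfl <;> omega

/-- A walk built from a sequence of labels. -/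
lemma exists_walk {V : Type} {G : SimpleGraph V} (x : ℕ → V) :
    ∀ m : ℕ, (∀ s < m, G.Adj (x s) (x (s + 1))) → ∃ p : G.Walk (x 0) (x m),
      p.support = (List.range (m + 1)).map x ∧
      ∀ z ∈ p.edges, ∃ s < m, z = s(x s, x (s + 1)) := by
  intro m
  induction m with
  | zero => exact fun _ => ⟨SimpleGraph.Walk.nil, by simp, by simp⟩
  | succ m ih =>
    intro h
    obtain ⟨p, hp, hp'⟩ := ih fun s hs => h s (by omega)
    refine ⟨p.concat (h m (by omega)), ?_, ?_⟩
    · rw [SimpleGraph.Walk.support_concat, hp, List.range_succ (n := m + 1)]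
      simp
    · intro z hz
      rw [SimpleGraph.Walk.edges_concat] at hz
      simp only [List.concat_eq_append, List.mem_append, List.mem_singleton] at hz
      rcases hz with hz | hz
      · obtain ⟨s, hs, rfl⟩ := hp' z hz
        exact ⟨s, by omega, rfl⟩
      · exact ⟨m, by omega, hz⟩

omit [NeZero k] in
lemma card_of_fib {E : Type} [Fintype E] {T : ℕ} (L : E → Fin T)
    (h : ∀ i, (univ.filter fun e => L e = i).card = k) : Fintype.card E = T * k := by
  rw [← card_univ, card_eq_sum_card_fiberwise (f := L) (t := univ) (fun _ _ => by simp)]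
  simp [h]

lemma fib_dig {E : Type} [Fintype E] {N : ℕ} (L : E → Fin (k ^ N))
    (h : ∀ i, (univ.filter fun e => L e = i).card = k) : Fib (fun e => dig (L e)) N := by
  intro e _
  refine Eq.trans (congrArg Finset.card ?_) (h (L e))
  ext e'
  simp only [mem_filter, mem_univ, true_and]
  exact ⟨fun h => dig_inj fun j hj => congrFun h ⟨j, hj⟩, fun h => by rw [h]⟩

theorem rearr_of_route {n m : ℕ} (hn : 2 ≤ n)
    (h : ∀ (E : Type) [Fintype E], Fintype.card E = k ^ (n - 1 + 1) →
      ∀ a b : E → ℕ → Fin k, Fib a (n - 1) → Fib b (n - 1) → Route a b (n - 1) m) :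
    Rearrangeable k n m := by
  intro E _ L R hL hR
  obtain ⟨l, hl1, hl2, hl3⟩ := h E (by rw [card_of_fib L hL, pow_succ]) _ _
    (fib_dig L hL) (fib_dig R hR)
  choose w hw using fun (e : E) (s : ℕ) => dig_surj (n - 1) fun j => l e (s + j)
  let x : E → ℕ → Fin (m + 1) × Fin (k ^ (n - 1)) := fun e s =>
    (⟨min s m, by omega⟩, w e s)
  have x0 : ∀ e, x e 0 = (0, L e) := fun e =>
    Prod.ext (Fin.ext (by simp [x])) (dig_inj fun j hj => by
      simp only [x]; rw [hw e 0 j hj, zero_add, hl1 e j hj])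
  have xm : ∀ e, x e m = (Fin.last m, R e) := fun e =>
    Prod.ext (Fin.ext (by simp [x])) (dig_inj fun j hj => by
      simp only [x]; rw [hw e m j hj, hl2 e j hj])
  have hadj : ∀ e, ∀ s < m, (SE k n m).Adj (x e s) (x e (s + 1)) := by
    intro e s hs
    refine (SE_adj hn _ _).2 (Or.inl ⟨by simp only [x]; omega, fun t ht => ?_⟩)
    simp only [x]
    rw [hw e _ t (by omega), hw e _ _ ht, add_assoc, add_comm 1 t]
  choose p hp hp' using fun e => exists_walk (x e) m (hadj e)
  refine ⟨fun e => (p e).copy (x0 e) (xm e), fun e => ?_, fun e e' hne z hz hz' => ?_⟩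
  · rw [SimpleGraph.Walk.isPath_copy, SimpleGraph.Walk.isPath_def, hp]
    refine List.Nodup.map_on (fun s hs t ht hst => ?_) List.nodup_range
    have := congrArg (fun u => (u.1 : ℕ)) hst
    simp only [x] at this
    rw [List.mem_range] at hs ht
    omega
  · rw [SimpleGraph.Walk.edges_copy] at hz hz'
    obtain ⟨s, hs, rfl⟩ := hp' e z hz
    obtain ⟨t, ht, hst⟩ := hp' e' _ hz'
    rcases Sym2.eq_iff.1 hst with ⟨h1, h2⟩ | ⟨h1, h2⟩
    · have h3 := congrArg (fun u => (u.1 : ℕ)) h1
      simp only [x] at h3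
      obtain rfl : s = t := by omega
      have h4 : w e s = w e' s := congrArg Prod.snd h1
      have h5 : w e (s + 1) = w e' (s + 1) := congrArg Prod.snd h2
      refine hne (hl3 s hs e e' fun j hj => ?_)
      by_cases c : j < n - 1
      · rw [← hw e s j c, ← hw e' s j c, h4]
      · have h6 : s + j = s + 1 + (j - 1) := by omega
        rw [h6, ← hw e _ _ (by omega), ← hw e' _ _ (by omega), h5]
    · have h3 := congrArg (fun u => (u.1 : ℕ)) h1
      have h4 := congrArg (fun u => (u.1 : ℕ)) h2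
      simp only [x] at h3 h4
      omega

lemma stage_le {n m : ℕ} (hn : 2 ≤ n) {u v : Fin (m + 1) × Fin (k ^ (n - 1))}
    (p : (SE k n m).Walk u v) (i : ℕ) : ∀ j, i + j ≤ p.length →
      ((p.getVert (i + j)).1 : ℕ) ≤ (p.getVert i).1 + j := by
  intro j
  induction j with
  | zero => simp
  | succ j ih =>
    intro h
    have h1 := ih (by omega)
    have h2 := (SE_adj hn _ _).1 (p.adj_getVert_succ (i := i + j) (by omega))
    rw [← add_assoc]
    omega

lemma card_edges {n m : ℕ} (hn : 2 ≤ n) (S : Finset (Sym2 (Fin (m + 1) × Fin (k ^ (n - 1)))))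
    (hS : ∀ z ∈ S, z ∈ (SE k n m).edgeSet) : S.card ≤ m * k ^ (n - 1 + 1) := by
  classical
  choose nx hnx using fun (i : Fin (k ^ (n - 1))) (c : Fin k) =>
    dig_surj (n - 1) fun t => if t + 1 < n - 1 then dig i (t + 1) else c
  let f : Fin m × Fin (k ^ (n - 1)) × Fin k → Sym2 (Fin (m + 1) × Fin (k ^ (n - 1))) :=
    fun y => s((y.1.castSucc, y.2.1), (y.1.succ, nx y.2.1 y.2.2))
  have key : ∀ u v : Fin (m + 1) × Fin (k ^ (n - 1)), (v.1 : ℕ) = u.1 + 1 →
      (∀ t, t + 1 < n - 1 → dig v.2 t = dig u.2 (t + 1)) → s(u, v) ∈ univ.image f := by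
    intro u v h1 h2
    refine mem_image.2 ⟨(⟨u.1, by omega⟩, u.2, dig v.2 (n - 1 - 1)), mem_univ _, ?_⟩
    refine Sym2.eq_iff.2 (Or.inl ⟨Prod.ext (Fin.ext rfl) rfl, Prod.ext (Fin.ext h1.symm) ?_⟩)
    refine dig_inj fun j hj => ?_
    simp only
    rw [hnx _ _ j hj]
    split_ifs with c
    · exact (h2 j c).symm
    · congr 1
      omega
  have : S ⊆ univ.image f := by
    intro z hz
    have hz' := hS z hz
    induction z using Sym2.ind with
    | _ u v =>
      rcases (SE_adj hn u v).1 hz' with h | h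
      · exact key u v h.1 h.2
      · rw [Sym2.eq_swap]
        exact key v u h.1 h.2
  refine (card_le_card this).trans (card_image_le.trans ?_)
  simp [pow_succ]

theorem route_of_rearr {n m : ℕ} (hn : 2 ≤ n) (h : Rearrangeable k n m)
    (E : Type) [Fintype E] (hc : Fintype.card E = k ^ (n - 1 + 1))
    (a b : E → ℕ → Fin k) (ha : Fib a (n - 1)) (hb : Fib b (n - 1)) : Route a b (n - 1) m := by
  classical
  choose enc henc using fun w : ℕ → Fin k => dig_surj (n - 1) w
  have hfib : ∀ a : E → ℕ → Fin k, Fib a (n - 1) →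
      ∀ i, (univ.filter fun e => enc (a e) = i).card = k := by
    intro a ha i
    obtain ⟨z, hz⟩ := konig _ _ k ha ha
    refine Eq.trans (congrArg Finset.card ?_) (card_fib_of_inj hc (fun e => fun j => a e j) z
      (fun e e' h1 h2 => hz e e' (Or.inl h1) h2) fun j => dig i j)
    ext e
    simp only [mem_filter, mem_univ, true_and]
    constructor
    · rintro rfl
      exact funext fun j => (henc _ _ j.2).symm
    · intro h
      exact dig_inj fun j hj => (henc _ _ hj).trans (congrFun h ⟨j, hj⟩)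
  obtain ⟨p, hp, hd⟩ := h E (fun e => enc (a e)) (fun e => enc (b e)) (hfib a ha) (hfib b hb)
  have hge : ∀ e, m ≤ (p e).length := by
    intro e
    have := stage_le hn (p e) 0 (p e).length (by omega)
    simpa using this
  have hlen : ∀ e, (p e).length = m := by
    have h1 := card_edges hn (univ.biUnion fun e => (p e).edges.toFinset) (by
      intro z hz
      obtain ⟨e, _, he⟩ := mem_biUnion.1 hz
      exact (p e).edges_subset_edgeSet (List.mem_toFinset.1 he))
    rw [card_biUnion (fun e _ e' _ hne => List.disjoint_toFinset_iff_disjoint.2 (hd e e' hne))]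
      at h1
    have h2 : ∀ e, (p e).edges.toFinset.card = (p e).length := fun e => by
      rw [List.toFinset_card_of_nodup (hp e).isTrail.edges_nodup, SimpleGraph.Walk.length_edges]
    simp only [h2] at h1
    have h3 : ∑ _e : E, m = ∑ e : E, (p e).length := by
      refine le_antisymm (sum_le_sum fun e _ => hge e) (h1.trans (le_of_eq ?_))
      simp [hc, mul_comm]
    exact fun e => ((sum_eq_sum_iff_of_le fun e _ => hge e).1 h3 e (mem_univ _)).symm
  have hst : ∀ e, ∀ s ≤ m, (((p e).getVert s).1 : ℕ) = s := by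
    intro e s hs
    have h1 := stage_le hn (p e) 0 s (by rw [hlen]; omega)
    have h2 := stage_le hn (p e) s (m - s) (by rw [hlen]; omega)
    have h3 : s + (m - s) = (p e).length := by rw [hlen]; omega
    rw [h3, SimpleGraph.Walk.getVert_length] at h2
    simp only [zero_add, SimpleGraph.Walk.getVert_zero, Fin.val_zero, Fin.val_last] at h1 h2
    omega
  have hsh : ∀ e, ∀ s < m, ∀ t, t + 1 < n - 1 →
      dig ((p e).getVert (s + 1)).2 t = dig ((p e).getVert s).2 (t + 1) := by
    intro e s hs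
    rcases (SE_adj hn _ _).1 ((p e).adj_getVert_succ (i := s) (by rw [hlen]; exact hs)) with h | h
    · exact h.2
    · have h1 := h.1
      rw [hst e s (by omega), hst e (s + 1) (by omega)] at h1
      omega
  let l : E → ℕ → Fin k := fun e t => if t < n - 1 then dig ((p e).getVert 0).2 t
    else dig ((p e).getVert (t + 2 - n)).2 (n - 2)
  have hl : ∀ e, ∀ s ≤ m, ∀ j < n - 1, l e (s + j) = dig ((p e).getVert s).2 j := by
    intro e s
    induction s with
    | zero => intro _ j hj; simp [l, hj]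
    | succ s ih =>
      intro hs j hj
      by_cases c : j + 1 < n - 1
      · rw [hsh e s (by omega) j c, ← ih (by omega) _ c, add_assoc, add_comm 1 j]
      · have h1 : ¬ s + 1 + j < n - 1 := by omega
        have h2 : s + 1 + j + 2 - n = s + 1 := by omega
        have h3 : n - 2 = j := by omega
        simp only [l, h1, if_false, h2, h3]
  refine ⟨l, fun e j hj => ?_, fun e j hj => ?_, fun s hs e e' hee => ?_⟩
  · have := hl e 0 (by omega) j hj
    rw [zero_add] at this
    rw [this, SimpleGraph.Walk.getVert_zero, henc _ _ hj]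
  · rw [hl e m le_rfl j hj, (p e).getVert_of_length_le (hlen e).le, henc _ _ hj]
  · by_contra hne
    have h1 : (p e).getVert s = (p e').getVert s :=
      Prod.ext (Fin.ext (by rw [hst e s hs.le, hst e' s hs.le])) (dig_inj fun j hj => by
        rw [← hl e s hs.le j hj, ← hl e' s hs.le j hj, hee j hj.le])
    have h2 : (p e).getVert (s + 1) = (p e').getVert (s + 1) :=
      Prod.ext (Fin.ext (by rw [hst e _ hs, hst e' _ hs])) (dig_inj fun j hj => by
        rw [← hl e (s + 1) hs j hj, ← hl e' (s + 1) hs j hj, add_assoc, add_comm 1 j, hee (j + 1) hj])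
    refine hd e e' hne (a := s((p e).getVert s, (p e).getVert (s + 1))) ?_ ?_
    · exact ((p e).mk_mem_edges_iff_exists).2 ⟨s, by rw [hlen]; exact hs, rfl⟩
    · exact ((p e').mk_mem_edges_iff_exists).2 ⟨s, by rw [hlen]; exact hs, by rw [h1, h2]⟩

theorem rearr_upper {n : ℕ} (hn : 2 ≤ n) : Rearrangeable k n (3 * n - 4) := by
  have : 3 * n - 4 = 3 * (n - 1) - 1 := by omega
  rw [this]
  exact rearr_of_route hn fun E _ hc a b ha hb => route_upper (by omega) hc a b ha hb

theorem rearr_succ {n m : ℕ} (hn : 2 ≤ n) (h : Rearrangeable k n m) :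
    Rearrangeable k n (m + 1) :=
  rearr_of_route hn fun E _ hc a b ha hb =>
    route_succ (by omega) hc (route_of_rearr hn h E hc) a b ha hb

theorem rearr_mono {n m m' : ℕ} (hn : 2 ≤ n) (hm : m ≤ m') (h : Rearrangeable k n m) :
    Rearrangeable k n m' := by
  induction hm with
  | refl => exact h
  | step _ ih => exact rearr_succ hn ih

omit [NeZero k] in
theorem not_rearr {n : ℕ} (hk : 3 ≤ k) (hn : 3 ≤ n) : ¬ Rearrangeable k n (2 * (n - 1)) := by
  obtain ⟨k, rfl⟩ : ∃ j, k = j + 3 := ⟨k - 3, by omega⟩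
  intro h
  obtain ⟨a, b, ha, hb, hr⟩ := no_route (k := k) (N := n - 1) (by omega)
  exact hr (route_of_rearr (by omega) h _ (by simp [pow_succ]) a b ha hb)

omit [NeZero k] in
theorem stages_bounds {n : ℕ} (hk : 3 ≤ k) (hn : 3 ≤ n) :
    2 * n ≤ stages k n ∧ stages k n ≤ 3 * n - 3 := by
  have : NeZero k := ⟨by omega⟩
  have hmem : 3 * n - 3 ∈ {r : ℕ | 2 ≤ r ∧ Rearrangeable k n (r - 1)} :=
    ⟨by omega, rearr_upper (by omega)⟩
  refine ⟨?_, Nat.sInf_le hmem⟩
  by_contra hlt
  have h := Nat.sInf_mem ⟨_, hmem⟩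
  refine not_rearr hk hn (rearr_mono (by omega) ?_ h.2)
  unfold stages at hlt
  omega

end Pool.Agent.Lib.MP_ec5f85_co
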