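import Mathlib

set_option autoImplicit false

/-! Counting tools, and a bound on cyclic label sequences of bounded degree and width. -/

namespace Pool.Agent.Lib.MP_ec5f85_co

open Finset

open Classical in
/-- The number of elements of `s` with property `P`. -/
noncomputable def cnt {ι : Type} (s : Finset ι) (P : ι → Prop) : ℕ := (s.filter P).card

section
variable {ι κ : Type} {s : Finset ι} {t : Finset κ} {P P' : ι → Prop} {R : κ → Prop}

lemma cnt_mono (h : ∀ x ∈ s, P x → P' x) : cnt s P ≤ cnt s P' := by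
  classical
  unfold cnt
  refine card_le_card fun x hx => ?_
  simp only [mem_filter] at hx ⊢
  exact ⟨hx.1, h x hx.1 hx.2⟩

lemma cnt_congr (h : ∀ x ∈ s, P x ↔ P' x) : cnt s P = cnt s P' :=
  le_antisymm (cnt_mono fun x hx => (h x hx).1) (cnt_mono fun x hx => (h x hx).2)

lemma cnt_lt (h : ∀ x ∈ s, P x → P' x) (y : ι) (hy : y ∈ s) (h1 : P' y) (h2 : ¬ P y) :
    cnt s P < cnt s P' := by
  unfold cnt
  refine card_lt_card ((ssubset_iff_of_subset fun x hx => ?_).2 ⟨y, ?_, ?_⟩)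
  · simp only [mem_filter] at hx ⊢
    exact ⟨hx.1, h x hx.1 hx.2⟩
  · simp only [mem_filter]
    exact ⟨hy, h1⟩
  · simp only [mem_filter]
    exact fun h => h2 h.2

lemma cnt_split (s : Finset ι) (P P' : ι → Prop) :
    cnt s P = cnt s (fun x => P x ∧ P' x) + cnt s (fun x => P x ∧ ¬ P' x) := by
  classical
  unfold cnt
  rw [← card_filter_add_card_filter_not (s := s.filter P) P', filter_filter, filter_filter]
  congr 1 <;> refine congrArg Finset.card ?_ <;> ext x <;> simp only [mem_filter]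

lemma cnt_or_le (s : Finset ι) (P P' : ι → Prop) :
    cnt s (fun x => P x ∨ P' x) ≤ cnt s P + cnt s P' := by
  rw [cnt_split s (fun x => P x ∨ P' x) P]
  exact add_le_add (cnt_mono fun x _ h => h.2) (cnt_mono fun x _ h => h.1.resolve_left h.2)

lemma cnt_le_of_inj (f : ι → κ) (h : ∀ x ∈ s, P x → f x ∈ t ∧ R (f x))
    (hi : ∀ x ∈ s, ∀ y ∈ s, P x → P y → f x = f y → x = y) : cnt s P ≤ cnt t R := by
  unfold cnt
  refine card_le_card_of_injOn f (fun x hx => ?_) (fun x hx y hy hxy => ?_)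
  · simp only [coe_filter, Set.mem_ofPred_eq] at hx ⊢
    exact h x hx.1 hx.2
  · simp only [coe_filter, Set.mem_ofPred_eq] at hx hy
    exact hi x hx.1 y hy.1 hx.2 hy.2 hxy

lemma cnt_bij (f : ι → κ) (h : ∀ x ∈ s, P x → f x ∈ t ∧ R (f x))
    (hi : ∀ x ∈ s, ∀ y ∈ s, P x → P y → f x = f y → x = y)
    (hs : ∀ y ∈ t, R y → ∃ x ∈ s, P x ∧ f x = y) : cnt s P = cnt t R := by
  unfold cnt
  refine card_bij (fun x _ => f x) (fun x hx => ?_) (fun x hx y hy hxy => ?_) (fun y hy => ?_)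
  · simp only [mem_filter] at hx ⊢
    exact h x hx.1 hx.2
  · simp only [mem_filter] at hx hy
    exact hi x hx.1 y hy.1 hx.2 hy.2 hxy
  · simp only [mem_filter] at hy ⊢
    obtain ⟨x, h1, h2, h3⟩ := hs y hy.1 hy.2
    exact ⟨x, ⟨h1, h2⟩, h3⟩

lemma cnt_true (s : Finset ι) : cnt s (fun _ => True) = s.card := by
  unfold cnt
  refine congrArg Finset.card ?_
  ext x
  simp only [mem_filter, and_true]

lemma cnt_le_card (s : Finset ι) (P : ι → Prop) : cnt s P ≤ s.card :=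
  (cnt_mono fun _ _ _ => trivial).trans (cnt_true s).le

lemma cnt_zero (h : ∀ x ∈ s, ¬ P x) : cnt s P = 0 := by
  unfold cnt
  refine card_eq_zero.2 (eq_empty_of_forall_notMem fun x hx => ?_)
  simp only [mem_filter] at hx
  exact h x hx.1 hx.2

lemma exists_of_cnt_pos (h : 0 < cnt s P) : ∃ x ∈ s, P x := by
  by_contra hn
  rw [cnt_zero fun x hx hp => hn ⟨x, hx, hp⟩] at h
  exact lt_irrefl _ h

lemma cnt_pos (y : ι) (hy : y ∈ s) (h : P y) : 0 < cnt s P :=
  lt_of_le_of_lt (Nat.zero_le _) (cnt_lt (P := fun _ => False) (fun _ _ h => h.elim) y hy h id)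

lemma cnt_fiber [Fintype κ] (s : Finset ι) (P : ι → Prop) (f : ι → κ) :
    cnt s P = ∑ w : κ, cnt s (fun x => P x ∧ f x = w) := by
  classical
  unfold cnt
  rw [card_eq_sum_card_fiberwise (f := f) (t := univ) (fun _ _ => mem_univ _)]
  refine sum_congr rfl fun w _ => congrArg Finset.card ?_
  ext x
  simp only [mem_filter, and_assoc]

lemma cnt_le_mul (m : ℕ) (r : ι → κ → Prop) (h : ∀ x ∈ s, P x → ∃ y ∈ t, R y ∧ r x y)
    (hm : ∀ y ∈ t, R y → cnt s (fun x => r x y) ≤ m) : cnt s P ≤ cnt t R * m := by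
  classical
  have h1 : s.filter P ⊆ (t.filter R).biUnion fun y => s.filter fun x => r x y := by
    intro x hx
    simp only [mem_filter, mem_biUnion] at hx ⊢
    obtain ⟨y, h1, h2, h3⟩ := h x hx.1 hx.2
    exact ⟨y, ⟨h1, h2⟩, hx.1, h3⟩
  have h2 := (card_le_card h1).trans (card_biUnion_le_card_mul _ _ m fun y hy => by
    simp only [mem_filter] at hy
    refine le_trans (le_of_eq ?_) (hm y hy.1 hy.2)
    unfold cnt
    refine congrArg Finset.card ?_
    ext x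
    simp only [mem_filter])
  unfold cnt
  refine le_trans (le_of_eq (congrArg Finset.card ?_)) (h2.trans (le_of_eq ?_))
  · ext x
    simp only [mem_filter]
  · refine congrArg (· * m) (congrArg Finset.card ?_)
    ext x
    simp only [mem_filter]

end

/-- The length threshold. -/
def thr (C : ℕ) : ℕ → ℕ
  | 0 => 1
  | w + 1 => C * (thr C w + 1)

lemma thr_pos {C : ℕ} (hC : 0 < C) (w : ℕ) : 0 < thr C w := by
  cases w with
  | zero => exact Nat.one_pos
  | succ w => exact Nat.mul_pos hC (Nat.succ_pos _)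

lemma thr_le {C : ℕ} (hC : 0 < C) (w : ℕ) : thr C w ≤ (2 * C) ^ w := by
  induction w with
  | zero => exact le_rfl
  | succ w ih =>
    have h := thr_pos hC w
    rw [thr, pow_succ]
    nlinarith

section
variable {α β : Type} {Q j J : ℕ} {a : ℕ → α} {b : ℕ → β}

/-- The class of `i` leaves the interval from `u` to `v`. -/
def Dang (Q : ℕ) (a : ℕ → α) (u v i : ℕ) : Prop := ∃ i' < Q, (i' < u ∨ v ≤ i') ∧ a i' = a i

lemma window
    (hcell : ∀ (P : α → Prop) (R : β → Prop), cnt (range Q) (fun i => P (a i) ∧ R (b i)) =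
      cnt (range Q) (fun i => P (a i) ∧ R (b (i + 1))))
    {u v D x : ℕ} (hv : v < Q) (hux : u ≤ x) (hx : x + D ≤ v)
    (hD : ∀ i i', u ≤ i → i' < v → ¬ Dang Q a u v i → a i = a i' → i' < i + D) :
    ∃ y, x ≤ y ∧ y ≤ x + D ∧
      (b y = b u ∨ ∃ i, u ≤ i ∧ i < v ∧ Dang Q a u v i ∧ b y = b (i + 1)) := by
  by_contra hn
  let R : β → Prop := fun z => z = b u ∨ ∃ i, u ≤ i ∧ i < v ∧ Dang Q a u v i ∧ z = b (i + 1)
  have hf : ∀ y, x ≤ y → y ≤ x + D → ¬ R (b y) := fun y h1 h2 h => hn ⟨y, h1, h2, h⟩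
  let P : α → Prop := fun z => ∃ i, u ≤ i ∧ i < x ∧ ¬ Dang Q a u v i ∧ a i = z
  have hP : ∀ i < Q, P (a i) → u ≤ i ∧ i < x + D ∧ ¬ Dang Q a u v i := by
    rintro i hi ⟨i0, h1, h2, h3, h4⟩
    have h5 : ¬ (i < u ∨ v ≤ i) := fun h => h3 ⟨i, hi, h, h4.symm⟩
    have h6 := hD i0 i h1 (by omega) h3 h4
    refine ⟨by omega, by omega, ?_⟩
    rintro ⟨i', h7, h8, h9⟩
    exact h3 ⟨i', h7, h8, h9.trans h4.symm⟩
  have e1 : cnt (range Q) (fun i => P (a i) ∧ R (b i)) =
      cnt (range Q) (fun i => ((u ≤ i ∧ i < x) ∧ R (b i)) ∧ ¬ Dang Q a u v i) := by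
    refine cnt_congr fun i hi => ⟨fun h => ?_, fun h => ⟨⟨i, h.1.1.1, h.1.1.2, h.2, rfl⟩, h.1.2⟩⟩
    obtain ⟨h1, h2, h3⟩ := hP i (mem_range.1 hi) h.1
    exact ⟨⟨⟨h1, by_contra fun c => hf i (by omega) (by omega) h.2⟩, h.2⟩, h3⟩
  have e2 : cnt (range Q) (fun i => P (a i) ∧ R (b (i + 1))) =
      cnt (range Q) (fun i => ((u ≤ i ∧ i < x) ∧ R (b (i + 1))) ∧ ¬ Dang Q a u v i) := by
    refine cnt_congr fun i hi => ⟨fun h => ?_, fun h => ⟨⟨i, h.1.1.1, h.1.1.2, h.2, rfl⟩, h.1.2⟩⟩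
    obtain ⟨h1, h2, h3⟩ := hP i (mem_range.1 hi) h.1
    exact ⟨⟨⟨h1, by_contra fun c => hf (i + 1) (by omega) (by omega) h.2⟩, h.2⟩, h3⟩
  have e3 : cnt (range Q) (fun i => ((u ≤ i ∧ i < x) ∧ R (b i)) ∧ Dang Q a u v i) ≤
      cnt (range Q) (fun i => ((u ≤ i ∧ i < x) ∧ R (b (i + 1))) ∧ Dang Q a u v i) :=
    cnt_mono fun i _ h => ⟨⟨h.1.1, Or.inr ⟨i, h.1.1.1, by have := h.1.1.2; omega, h.2, rfl⟩⟩, h.2⟩
  have e4 := cnt_split (range Q) (fun i => (u ≤ i ∧ i < x) ∧ R (b i)) (Dang Q a u v)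
  have e5 := cnt_split (range Q) (fun i => (u ≤ i ∧ i < x) ∧ R (b (i + 1))) (Dang Q a u v)
  have e6 := hcell P R
  have hRu : R (b u) := Or.inl rfl
  have hlt : u < x := lt_of_le_of_ne hux fun h => hf u h.ge (by omega) hRu
  have e7 : cnt (range Q) (fun i => (u ≤ i ∧ i < x) ∧ R (b (i + 1))) ≤
      cnt (range Q) (fun i => (u < i ∧ i < x) ∧ R (b i)) := by
    refine cnt_le_of_inj (fun i => i + 1) (fun i _ h => ?_) (fun i _ i' _ _ _ h => by omega)
    have h1 : i + 1 ≠ x := fun c => hf (i + 1) c.ge (by omega) h.2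
    have h2 := h.1
    exact ⟨mem_range.2 (by omega), ⟨by omega, by omega⟩, h.2⟩
  have e8 : cnt (range Q) (fun i => (u < i ∧ i < x) ∧ R (b i)) <
      cnt (range Q) (fun i => (u ≤ i ∧ i < x) ∧ R (b i)) :=
    cnt_lt (fun i _ h => ⟨⟨h.1.1.le, h.1.2⟩, h.2⟩) u (mem_range.2 (by omega))
      ⟨⟨le_rfl, hlt⟩, hRu⟩ (fun h => lt_irrefl _ h.1.1)
  omega

lemma long_pair
    (hcell : ∀ (P : α → Prop) (R : β → Prop), cnt (range Q) (fun i => P (a i) ∧ R (b i)) =
      cnt (range Q) (fun i => P (a i) ∧ R (b (i + 1))))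
    (ha : ∀ i0, cnt (range Q) (fun i => a i = a i0) ≤ j)
    (hb : ∀ i0, cnt (range Q) (fun i => b i = b i0) ≤ J)
    (hw : ∀ x, cnt (range Q) (fun i => x ≤ i ∧ ∃ i' < x, a i' = a i) ≤ j)
    {u v D : ℕ} (hv : v < Q) (huv : u ≤ v)
    (hL : ((j + j * j + 1) * J + 1) * (D + 1) ≤ v - u + 1) :
    ∃ i i', u ≤ i ∧ i' < v ∧ a i = a i' ∧ i + D ≤ i' := by
  by_contra hn
  have hD : ∀ i i', u ≤ i → i' < v → ¬ Dang Q a u v i → a i = a i' → i' < i + D :=
    fun i i' h1 h2 _ h4 => by_contra fun c => hn ⟨i, i', h1, h2, h4, by omega⟩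
  have d1 : cnt (range Q) (fun i => u ≤ i ∧ i < v ∧ Dang Q a u v i) ≤ j + j * j := by
    refine le_trans (cnt_mono (P' := fun i => (u ≤ i ∧ ∃ i' < u, a i' = a i) ∨
      (i < v ∧ ∃ i' < Q, v ≤ i' ∧ a i' = a i)) ?_) ((cnt_or_le _ _ _).trans (add_le_add (hw u) ?_))
    · rintro i _ ⟨h1, h2, i', h3, h4 | h4, h5⟩
      · exact Or.inl ⟨h1, i', h4, h5⟩
      · exact Or.inr ⟨h2, i', h3, h4, h5⟩
    · refine (cnt_le_mul (t := range Q) (R := fun i => v ≤ i ∧ ∃ i' < v, a i' = a i) j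
        (fun i i' => a i = a i') ?_ fun y _ _ => ha y).trans (Nat.mul_le_mul_right _ (hw v))
      rintro i _ ⟨h1, i', h2, h3, h4⟩
      exact ⟨i', mem_range.2 h2, ⟨h3, i, h1, h4.symm⟩, h4.symm⟩
  have d2 : cnt (range Q) (fun y => b y = b u ∨
      ∃ i, u ≤ i ∧ i < v ∧ Dang Q a u v i ∧ b y = b (i + 1)) ≤ J + (j + j * j) * J := by
    refine (cnt_or_le _ _ _).trans (add_le_add (hb u) ?_)
    refine (cnt_le_mul (t := range Q) (R := fun i => u ≤ i ∧ i < v ∧ Dang Q a u v i) J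
      (fun y i => b y = b (i + 1)) ?_ fun y _ _ => hb (y + 1)).trans (Nat.mul_le_mul_right _ d1)
    rintro y _ ⟨i, h1, h2, h3, h4⟩
    exact ⟨i, mem_range.2 (by omega), ⟨h1, h2, h3⟩, h4⟩
  set C := (j + j * j + 1) * J + 1 with hC
  have key : ∀ m, m < C → u + m * (D + 1) + D ≤ v := by
    intro m hm
    have : (m + 1) * (D + 1) ≤ C * (D + 1) := Nat.mul_le_mul_right _ hm
    rw [add_mul] at this
    omega
  choose! y hy using fun (m : ℕ) (hm : m < C) =>
    window hcell hv (Nat.le_add_right u (m * (D + 1))) (key m hm) hD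
  have d3 : cnt (range C) (fun _ => True) ≤ cnt (range Q) (fun y => b y = b u ∨
      ∃ i, u ≤ i ∧ i < v ∧ Dang Q a u v i ∧ b y = b (i + 1)) := by
    refine cnt_le_of_inj y (fun m hm _ => ?_) (fun m hm m' hm' _ _ h => ?_)
    · have h1 := hy m (mem_range.1 hm)
      have h2 := key m (mem_range.1 hm)
      exact ⟨mem_range.2 (by omega), h1.2.2⟩
    · have h1 := hy m (mem_range.1 hm)
      have h2 := hy m' (mem_range.1 hm')
      by_contra c
      rcases Nat.lt_or_gt_of_ne c with c | c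
      · have : (m + 1) * (D + 1) ≤ m' * (D + 1) := Nat.mul_le_mul_right _ c
        rw [add_mul] at this
        omega
      · have : (m' + 1) * (D + 1) ≤ m * (D + 1) := Nat.mul_le_mul_right _ c
        rw [add_mul] at this
        omega
  rw [cnt_true, card_range] at d3
  have : C = J + (j + j * j) * J + 1 := by rw [hC]; ring
  omega

theorem comb
    (hcell : ∀ (P : α → Prop) (R : β → Prop), cnt (range Q) (fun i => P (a i) ∧ R (b i)) =
      cnt (range Q) (fun i => P (a i) ∧ R (b (i + 1))))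
    (ha : ∀ i0, cnt (range Q) (fun i => a i = a i0) ≤ j)
    (hb : ∀ i0, cnt (range Q) (fun i => b i = b i0) ≤ J)
    (hw : ∀ x, cnt (range Q) (fun i => x ≤ i ∧ ∃ i' < x, a i' = a i) ≤ j) :
    Q < thr ((j + j * j + 1) * J + 1) (j + 1) := by
  have key : ∀ w u v, u ≤ v → v < Q → thr ((j + j * j + 1) * J + 1) w ≤ v - u + 1 →
      cnt (range Q) (fun i => v ≤ i ∧ ∃ i' < u, a i' = a i) + w ≤ j := by
    intro w
    induction w with
    | zero =>
      intro u v h1 _ _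
      rw [add_zero]
      refine le_trans (cnt_mono ?_) (hw v)
      rintro i _ ⟨h2, i', h3, h4⟩
      exact ⟨h2, i', by omega, h4⟩
    | succ w ih =>
      intro u v h1 h2 h3
      obtain ⟨i, i', h4, h5, h6, h7⟩ := long_pair hcell ha hb hw h2 h1 h3
      have h8 := thr_pos (C := (j + j * j + 1) * J + 1) (Nat.succ_pos _) w
      have h9 := ih (i + 1) i' (by omega) (by omega) (by omega)
      have h10 : cnt (range Q) (fun z => v ≤ z ∧ ∃ z' < u, a z' = a z) <
          cnt (range Q) (fun z => i' ≤ z ∧ ∃ z' < i + 1, a z' = a z) := by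
        refine cnt_lt ?_ i' (mem_range.2 (by omega)) ⟨le_rfl, i, by omega, h6⟩ fun h => by omega
        rintro z _ ⟨c1, z', c2, c3⟩
        exact ⟨by omega, z', by omega, c3⟩
      omega
  by_contra hn
  have h8 := thr_pos (C := (j + j * j + 1) * J + 1) (Nat.succ_pos _) (j + 1)
  have := key (j + 1) 0 (Q - 1) (by omega) (by omega) (by omega)
  omega

end

end Pool.Agent.Lib.MP_ec5f85_co
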