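import Pool.Agent.Lib.MP_ec5f85_co.Geo

set_option autoImplicit false

/-! The comb mask: no routing through `2 * N + 1 + d` levels of edges when `N` is large. -/

namespace Pool.Agent.Lib.MP_ec5f85_co

open Finset

/-- Block `m` of the code of place `y` of lap `i`. -/
def cd (A Q i y m : ℕ) : ℕ :=
  if y < A ^ Q then
    (if m = Q + 1 then i else if m = i + 1 then 0
      else y / A ^ (Q - 1 - (if m ≤ i then m else m - 1)) % A + 1)
  else if m = 0 then y - A ^ Q + 1 else i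

section
variable {A Q i i' y y' n : ℕ}

lemma cd_lt (hA : 0 < A) (hi : i ≤ A) (hy : y < A ^ Q + A) (m : ℕ) : cd A Q i y m < A + 1 := by
  unfold cd
  split_ifs <;> first | omega | exact Nat.succ_lt_succ (Nat.mod_lt _ hA)

lemma cd_zero : cd A Q i y 0 ≠ 0 := by
  simp only [cd, Nat.zero_ne_add_one, if_false, if_true]
  split_ifs <;> exact Nat.succ_ne_zero _

lemma cd_last : cd A Q i y (Q + 1) = i := by
  simp only [cd, Nat.succ_ne_zero, if_false, if_true, ite_self]

lemma div_eq_of_digits (hA : 0 < A) (hy : y < A ^ Q) (hy' : y' < A ^ Q) (hn : n ≤ Q)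
    (h : ∀ m < n, y / A ^ (Q - 1 - m) % A = y' / A ^ (Q - 1 - m) % A) :
    y / A ^ (Q - n) = y' / A ^ (Q - n) := by
  have : NeZero A := ⟨by omega⟩
  have e : A ^ Q = A ^ n * A ^ (Q - n) := by rw [← pow_add, Nat.add_sub_cancel' hn]
  refine eq_of_digits (k := A) n _ _ ((Nat.div_lt_iff_lt_mul (Nat.pow_pos hA)).2 (e ▸ hy))
    ((Nat.div_lt_iff_lt_mul (Nat.pow_pos hA)).2 (e ▸ hy')) fun j hj => ?_
  have := h (n - 1 - j) (by omega)
  rwa [Nat.div_div_eq_div_mul, Nat.div_div_eq_div_mul, ← pow_add,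
    show Q - n + j = Q - 1 - (n - 1 - j) by omega]

lemma cd_priv (hy : y < A ^ Q) (hy' : y' < A ^ Q) (hi : i < Q) (hn : i + 1 < n)
    (h : ∀ m < n, cd A Q i y m = cd A Q i' y' m) : i' = i := by
  have := h (i + 1) hn
  unfold cd at this
  rw [if_pos hy, if_pos hy', if_neg (by omega), if_pos rfl, if_neg (by omega)] at this
  by_contra c
  rw [if_neg (by omega)] at this
  omega

lemma cd_pub (hA : 0 < A) (hy : y < A ^ Q) (hy' : y' < A ^ Q) (hn : n ≤ Q) (hi : n ≤ i + 1)
    (hi' : n ≤ i' + 1) (h : ∀ m < n, cd A Q i y m = cd A Q i' y' m) :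
    y / A ^ (Q - n) = y' / A ^ (Q - n) := by
  refine div_eq_of_digits hA hy hy' hn fun m hm => ?_
  have := h m hm
  unfold cd at this
  rw [if_pos hy, if_pos hy', if_neg (by omega), if_neg (by omega), if_pos (by omega),
    if_neg (by omega), if_neg (by omega), if_pos (by omega)] at this
  omega

lemma cd_inj (hA : 0 < A) (hy : y < A ^ Q ↔ y' < A ^ Q)
    (h : ∀ m < Q + 2, cd A Q i y m = cd A Q i' y' m) : i = i' ∧ y = y' := by
  have e : i = i' := by simpa only [cd_last] using h (Q + 1) (by omega)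
  subst e
  refine ⟨rfl, ?_⟩
  by_cases c : y < A ^ Q
  · have := div_eq_of_digits hA c (hy.1 c) le_rfl fun m hm => by
      by_cases c' : m ≤ i
      · have := h m (by omega)
        unfold cd at this
        rw [if_pos c, if_pos (hy.1 c), if_neg (by omega), if_neg (by omega), if_pos c',
          if_neg (by omega), if_neg (by omega)] at this
        omega
      · have := h (m + 1) (by omega)
        unfold cd at this
        rw [if_pos c, if_pos (hy.1 c), if_neg (by omega), if_neg (by omega), if_neg (by omega),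
          if_neg (by omega), if_neg (by omega), Nat.add_sub_cancel] at this
        omega
    simpa using this
  · have := h 0 (by omega)
    unfold cd at this
    rw [if_neg c, if_neg (fun c' => c (hy.2 c')), if_pos rfl, if_pos rfl] at this
    have := mt hy.2 c
    omega

lemma bern (A n : ℕ) : (A + 1) ^ n * (A + 1 - n) ≤ (A + 1) * A ^ n := by
  induction n with
  | zero => simp
  | succ n ih =>
    by_cases c : n ≤ A
    · obtain ⟨u, rfl⟩ := Nat.exists_eq_add_of_le c
      rw [show n + u + 1 - n = u + 1 by omega] at ih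
      rw [show n + u + 1 - (n + 1) = u by omega, pow_succ, pow_succ]
      calc (n + u + 1) ^ n * (n + u + 1) * u ≤ (n + u + 1) ^ n * (u + 1) * (n + u) := by
            rw [mul_assoc, mul_assoc]
            exact Nat.mul_le_mul_left _ (by nlinarith)
        _ ≤ (n + u + 1) * (n + u) ^ n * (n + u) := Nat.mul_le_mul_right _ ih
        _ = _ := by ring
    · rw [show A + 1 - (n + 1) = 0 by omega]
      simp

lemma pow_le_two (h : 2 * n ≤ A + 1) : (A + 1) ^ n ≤ 2 * A ^ n := by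
  have h1 := bern A n
  have h2 : (A + 1) ^ n * (A + 1) ≤ (A + 1) ^ n * (2 * (A + 1 - n)) :=
    Nat.mul_le_mul_left _ (by omega)
  refine Nat.le_of_mul_le_mul_right ?_ (Nat.succ_pos A)
  nlinarith

end

variable {k : ℕ} [NeZero k]

/-- The atom visited at a place of the cycle. -/
def vpos (k q A Q L : ℕ) [NeZero k] (z : ZMod (Q * L)) : Atm k q (Q + 2) :=
  (if plc L z < A ^ Q then 0 else 1, 0,
    fun m => Fin.ofNat (k ^ q) (cd A Q (lap L z) (plc L z) m), 0)

section
variable {q A Q L : ℕ} [NeZero (Q * L)]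

lemma fin_one_ne (hk : 2 ≤ k) : (1 : Fin k) ≠ 0 := by
  intro c
  have := congrArg Fin.val c
  rw [Fin.val_one', Nat.mod_eq_of_lt hk] at this
  exact one_ne_zero this

lemma vpos_fst (hk : 2 ≤ k) (z : ZMod (Q * L)) :
    (vpos k q A Q L z).1 = 0 ↔ plc L z < A ^ Q := by
  unfold vpos
  split_ifs with c
  · exact iff_of_true rfl c
  · exact iff_of_false (fin_one_ne hk) c

lemma vpos_val (hA : k ^ q = A + 1) (hQ : Q ≤ A) (hL : L = A ^ Q + A) (z : ZMod (Q * L)) (m : Fin (Q + 2)) :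
    ((vpos k q A Q L z).2.2.1 m : ℕ) = cd A Q (lap L z) (plc L z) m := by
  have h := lap_lt z
  exact Nat.mod_eq_of_lt (hA ▸ cd_lt (by omega) (by omega) (hL ▸ h.2) m)

lemma vpos_zero (hA : k ^ q = A + 1) (hQ : Q ≤ A) (hL : L = A ^ Q + A) (z : ZMod (Q * L)) :
    (vpos k q A Q L z).2.2.1 0 ≠ 0 := by
  intro c
  have := vpos_val hA hQ hL z 0
  rw [c] at this
  exact cd_zero this.symm

lemma visit (hk : 2 ≤ k) (hA : k ^ q = A + 1) (hQ : Q ≤ A) (hL : L = A ^ Q + A) (b : Bool)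
    {z z' : ZMod (Q * L)} {n : ℕ} (hn : 1 ≤ n)
    (e : ∀ j < 1 + q * n, wd (adr b (Fin.last _) (vpos k q A Q L z)) j =
      wd (adr b (Fin.last _) (vpos k q A Q L z')) j) :
    (plc L z < A ^ Q ↔ plc L z' < A ^ Q) ∧
      ((plc L z < A ^ Q ↔ b) → n ≤ Q + 2 → ∀ m < n,
        cd A Q (lap L z) (plc L z) m =
          cd A Q (lap L z') (plc L z') m) ∧
      (¬ (plc L z < A ^ Q ↔ b) → lap L z = lap L z') ∧
      (2 * (Q + 2) ≤ n → z = z') := by
  have h0 := (lap_lt z).1
  have hA' : 0 < A := lt_of_lt_of_le (Nat.zero_lt_of_lt h0) hQ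
  obtain ⟨h1, h2, h3, h4⟩ := vis (c := (vpos k q A Q L z).1) (c' := (vpos k q A Q L z').1)
    (by omega) b (Fin.last _) (vpos_zero hA hQ hL z) (vpos_zero hA hQ hL z') hn e
  have h5 : plc L z < A ^ Q ↔ plc L z' < A ^ Q := by
    rw [← vpos_fst (q := q) hk, ← vpos_fst (q := q) hk, h1]
  rw [vpos_fst hk] at h2 h3
  refine ⟨h5, fun c c' m hm => ?_, fun c => ?_, fun c => ?_⟩
  · have := congrArg Fin.val (h2 c ⟨m, by omega⟩ hm)
    rwa [vpos_val hA hQ hL, vpos_val hA hQ hL] at this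
  · have := congrArg Fin.val (h3 c)
    rwa [vpos_val hA hQ hL, vpos_val hA hQ hL, Fin.val_last, cd_last, cd_last] at this
  · have := cd_inj hA' h5 fun m hm => by
      have := congrArg Fin.val (congrFun (h4 c) ⟨m, hm⟩)
      rwa [vpos_val hA hQ hL, vpos_val hA hQ hL] at this
    rw [← pt_self z, ← pt_self z', this.1, this.2]

lemma vpos_reg (hA : k ^ q = A + 1) (hQ : Q ≤ A) (hL : L = A ^ Q + A) (z : ZMod (Q * L)) (c : Fin k) {n : ℕ}
    (hn : 1 ≤ n) : ¬ Cs c n (vpos k q A Q L z) ∧ Rs (vpos k q A Q L z).1 n (vpos k q A Q L z) := by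
  have h0 := (lap_lt z).1
  have hA' : 0 < A := lt_of_lt_of_le (Nat.zero_lt_of_lt h0) hQ
  refine ⟨fun h => vpos_zero hA hQ hL z ?_, rfl, Or.inl fun _ _ => rfl⟩
  have := h.2 0 (by rw [Fin.val_zero]; omega)
  rwa [show vpos k q A Q L z = ((vpos k q A Q L z).1, 0, (vpos k q A Q L z).2.2.1, 0) from rfl,
    mix_pos (by omega) _ _ (vpos_zero hA hQ hL z)] at this

end

theorem comb_bound (hk : 2 ≤ k) {q A Q r d : ℕ} (hA : k ^ q = A + 1) (hQ : 2 * Q ≤ A + 1)
    (hQ2 : 2 ≤ Q) (hr : 1 + q * (3 * (Q + 2)) + d ≤ r + 1)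
    (h : Rearrangeable k (1 + q * (3 * (Q + 2)) + r + 1)
      (2 * (1 + q * (3 * (Q + 2)) + r) + 1 + d)) :
    Q < thr ((2 * k ^ (d + 1) + 2 * k ^ (d + 1) * (2 * k ^ (d + 1)) + 1) * (2 * k ^ (d + 1)) + 1)
      (2 * k ^ (d + 1) + 1) := by
  have hA0 : 0 < A := by omega
  have hQA : Q ≤ A := by omega
  have hL0 : 0 < A ^ Q := Nat.pow_pos hA0
  obtain ⟨L, hL⟩ : ∃ L, L = A ^ Q + A := ⟨_, rfl⟩
  have : NeZero (Q * L) := ⟨(Nat.mul_pos (by omega) (by omega)).ne'⟩
  have hrw := adr_inj (k := k) (q := q) (by omega) false (Fin.last (Q + 1))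
  have hcw := adr_inj (k := k) (q := q) (by omega) true (Fin.last (Q + 1))
  have lev : ∀ n, n ≤ 3 * (Q + 2) → 1 + q * n ≤ 1 + q * (3 * (Q + 2)) := fun n hn =>
    Nat.add_le_add_left (Nat.mul_le_mul_left _ hn) _
  obtain ⟨l, hs⟩ := phys (fun x => wd (adr false (Fin.last _) x))
    (fun x => wd (adr true (Fin.last _) x)) (vpos k q A Q L) (Equiv.addRight 1) _ r d card_atm
    hrw hcw (fun z z' c => (visit hk hA hQA hL true (n := 2 * (Q + 2)) (by omega)
      (fun _ _ => by rw [c])).2.2.2 le_rfl) hr (by omega) h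
  simp only [Equiv.coe_addRight] at hs
  generalize hp : 1 + q * (3 * (Q + 2)) = p at hs hrw hcw lev hr
  generalize hN : p + r = N at hs
  have hpow : ∀ n, k ^ (d + (1 + q * n)) = k ^ (d + 1) * (A + 1) ^ n := fun n => by
    rw [← add_assoc, pow_add, pow_mul, hA]
  have glue : N + d + p ≤ 2 * N + 1 - p := by omega
  have cU := const_of_bal (l := l) fun y => hs.balC hrw (lev (2 * (Q + 2)) (by omega))
    (fun z => z = y + 1) (fun z z' c1 c2 =>
      ((visit hk hA hQA hL true (by omega) c1).2.2.2 le_rfl).symm.trans c2)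
    (fun z => Same l _ _ z y) (fun _ _ c1 c2 => c1.symm.trans c2)
  have cV := const_of_bal (l := l) fun y => hs.balR hcw (lev (2 * (Q + 2)) (by omega))
    (fun z => z = y + 1) (fun z z' c1 c2 =>
      ((visit hk hA hQA hL false (by omega) c1).2.2.2 le_rfl).symm.trans c2)
    (fun z => Same l _ _ z y) (fun _ _ c1 c2 => c1.symm.trans c2)
  have back : ∀ i y, pt Q L i (y + 1) - 1 = pt Q L i y := fun i y => by
    rw [pt_succ, add_sub_cancel_right]
  have back0 : ∀ i, pt Q L i (A ^ Q) - 1 = pt Q L i (A ^ Q - 1) := fun i => by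
    rw [← back i (A ^ Q - 1), Nat.sub_add_cancel hL0]
  have back1 : ∀ i, pt Q L (i + 1) 0 - 1 = pt Q L i (L - 1) := fun i => by
    rw [pt_lap, ← back i (L - 1), Nat.sub_add_cancel (by omega)]
  have kUR : ∀ i < Q, Same l (N + d + (1 + q * 1)) (2 * N + 1 - p) (pt Q L i (L - 1))
      (pt Q L i (A ^ Q - 1)) := by
    intro i hi
    rw [← back0]
    refine kept _ (Same.refl l _ _) hi (by omega) (by omega) (hs.balC hrw (lev 1 (by omega))
      (fun z => lap L z = i ∧ A ^ Q ≤ plc L z ∧ plc L z ≤ L - 1) (fun z z' c1 c2 => ?_)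
      _ (fun _ _ c1 c2 => c1.symm.trans c2))
    obtain ⟨v1, _, v3, _⟩ := visit hk hA hQA hL true le_rfl c1
    have := (lap_lt z').2
    refine ⟨(v3 fun c => ?_).symm.trans c2.1, by omega, by omega⟩
    have := c.2 rfl
    omega
  have kUC : ∀ n ≤ Q, ∀ i, i + 1 < n → Same l (N + d + (1 + q * n)) (2 * N + 1 - p)
      (pt Q L i (A ^ Q - 1)) (pt Q L i 0 - 1) := by
    intro n hn i hi
    refine kept _ (Same.refl l _ _) (by omega) (by omega) (by omega)
      (hs.balC hrw (lev n (by omega))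
      (fun z => lap L z = i ∧ 0 ≤ plc L z ∧ plc L z ≤ A ^ Q - 1) (fun z z' c1 c2 => ?_)
      _ (fun _ _ c1 c2 => c1.symm.trans c2))
    obtain ⟨v1, v2, _⟩ := visit hk hA hQA hL true (by omega) c1
    have c3 : plc L z < A ^ Q := by omega
    have c4 := v1.1 c3
    refine ⟨(cd_priv c3 c4 (lap_lt z).1 (by omega)
      (v2 (iff_of_true c3 rfl) (by omega))).trans c2.1, by omega, by omega⟩
  have kVC : ∀ i < Q, Same l (N + d + p) (2 * N + 1 - (1 + q * 1))
      (pt Q L i (A ^ Q - 1)) (pt Q L i 0 - 1) := by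
    intro i hi
    refine kept _ (Same.refl l _ _) hi (by omega) (by omega) (hs.balR hcw (lev 1 (by omega))
      (fun z => lap L z = i ∧ 0 ≤ plc L z ∧ plc L z ≤ A ^ Q - 1) (fun z z' c1 c2 => ?_)
      _ (fun _ _ c1 c2 => c1.symm.trans c2))
    obtain ⟨v1, _, v3, _⟩ := visit hk hA hQA hL false le_rfl c1
    have c3 : plc L z < A ^ Q := by omega
    have c4 := v1.1 c3
    exact ⟨(v3 fun c => absurd (c.1 c3) (by decide)).symm.trans c2.1, by omega, by omega⟩
  have ptinj : ∀ i < Q, ∀ i' < Q, ∀ y < L, ∀ y' < L, pt Q L i y = pt Q L i' y' →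
      y = y' ∧ i = i' := by
    intro i hi i' hi' y hy y' hy' c
    have a1 := pt_val hi hy
    have a2 := pt_val hi' hy'
    rw [c] at a1
    exact ⟨a1.2.symm.trans a2.2, a1.1.symm.trans a2.1⟩
  have degU : ∀ n, 1 ≤ n → n ≤ Q → ∀ z0, cnt (range Q) (fun i => n ≤ i + 1 ∧
      Same l (N + d + (1 + q * n)) (2 * N + 1 - p) (pt Q L i (A ^ Q - 1)) z0) ≤
        2 * k ^ (d + 1) := by
    intro n h1 h2 z0
    have e : A ^ Q = A ^ n * A ^ (Q - n) := by rw [← pow_add, Nat.add_sub_cancel' h2]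
    have hB : 0 < A ^ (Q - n) := Nat.pow_pos hA0
    have hle : ∀ c < A ^ n, 0 < (c + 1) * A ^ (Q - n) ∧ (c + 1) * A ^ (Q - n) ≤ A ^ Q :=
      fun c hc => ⟨Nat.mul_pos (by omega) hB, e ▸ Nat.mul_le_mul_right _ hc⟩
    have m1 := mass (A ^ n) Q _ (fun c i => pt Q L i ((c + 1) * A ^ (Q - n) - 1))
      (fun i => n ≤ i + 1) (fun z => Same l (N + d + (1 + q * n)) (2 * N + 1 - p) z z0)
      (fun z => Rs 0 n (vpos k q A Q L z) ∧
        Same l (N + d + (1 + q * n)) (2 * N + 1 - (1 + q * (2 * (Q + 2)))) z z0)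
      (fun c hc => (?_ : _ = cnt (range Q) (fun i => n ≤ i + 1 ∧
        Same l (N + d + (1 + q * n)) (2 * N + 1 - p) (pt Q L i (A ^ Q - 1)) z0)))
      (fun c hc c' hc' i hi i' hi' c1 => ?_) (fun c hc i hi c1 => ⟨?_, c1.glue (cV _ _) glue⟩)
    · have m2 := (hs _ _ (lev n (by omega)) (lev (2 * (Q + 2)) (by omega)) z0 _ _
        (Rs_dep (b := false) (c := 0) (by simp) _ n) (Cs_dep (b := true) (c := 0) (by simp) _ n)).1
        (Cs_sub h1) 1 (hp ▸ Rs_card (by omega) 0 n)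
      rw [cnt_zero (P := fun z => Cs 0 n _ ∧ _) (fun z _ c => (vpos_reg hA hQA hL _ 0 h1).1 c.1),
        zero_add, one_mul, hpow] at m2
      have m3 := pow_le_two (A := A) (n := n) (by omega)
      refine Nat.le_of_mul_le_mul_left ((m1.trans m2).trans ?_) (Nat.pow_pos (n := n) hA0)
      nlinarith [Nat.mul_le_mul_left (k ^ (d + 1)) m3]
    · have a1 := hle c hc
      by_cases c1 : (c + 1) * A ^ (Q - n) = A ^ Q
      · simp only [c1]
      have a2 := interval (fun i => n ≤ i + 1) ((c + 1) * A ^ (Q - n)) (A ^ Q - 1) (by omega)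
        (by omega) _ (hs.balC hrw (lev n (by omega)) (fun z => n ≤ lap L z + 1 ∧
          (c + 1) * A ^ (Q - n) ≤ plc L z ∧ plc L z ≤ A ^ Q - 1) (fun z z' c2 c3 => ?_)
          (fun z => Same l _ _ z z0) (fun _ _ c1 c2 => c1.symm.trans c2))
      · rw [a2]
        refine cnt_congr fun i _ => ?_
        rw [← back i ((c + 1) * A ^ (Q - n) - 1), Nat.sub_add_cancel a1.1]
      · obtain ⟨v1, v2, _⟩ := visit hk hA hQA hL true h1 c2
        have c4 : plc L z < A ^ Q := by omega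
        have c5 := v1.1 c4
        have v3 := v2 (iff_of_true c4 rfl) (by omega)
        have c6 : n ≤ lap L z' + 1 := by
          by_contra c7
          have := cd_priv c5 c4 (lap_lt z').1 (not_le.1 c7) fun m hm => (v3 m hm).symm
          omega
        refine ⟨c6, ?_, by omega⟩
        rw [← Nat.le_div_iff_mul_le hB, ← cd_pub hA0 c4 c5 h2 c3.1 c6 v3,
          Nat.le_div_iff_mul_le hB]
        exact c3.2.1
    · have a1 := hle c hc
      have a2 := hle c' hc'
      have a3 := ptinj i hi i' hi' _ (by omega) _ (by omega) c1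
      refine ⟨?_, a3.2⟩
      have : (c + 1) * A ^ (Q - n) = (c' + 1) * A ^ (Q - n) := by omega
      exact Nat.succ_injective (Nat.eq_of_mul_eq_mul_right hB this)
    · have a1 := hle c hc
      have a2 := (vpos_reg hA hQA hL (pt Q L i ((c + 1) * A ^ (Q - n) - 1)) 0 h1).2
      rwa [(vpos_fst hk _).2 (by rw [(pt_val hi (by omega)).2]; omega)] at a2
  have degV : ∀ z0, cnt (range Q) (fun i => True ∧
      Same l (N + d + p) (2 * N + 1 - (1 + q * 1)) (pt Q L i (A ^ Q - 1)) z0) ≤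
        2 * k ^ (d + 1) := by
    intro z0
    have m1 := mass A Q _ (fun c i => pt Q L i (A ^ Q - 1 + c))
      (fun _ => True) (fun z => Same l (N + d + p) (2 * N + 1 - (1 + q * 1)) z z0)
      (fun z => Rs 1 1 (vpos k q A Q L (z + 1)) ∧
        Same l (N + d + (1 + q * (2 * (Q + 2)))) (2 * N + 1 - (1 + q * 1)) z z0)
      (fun c hc => (?_ : _ = cnt (range Q) (fun i => True ∧
        Same l (N + d + p) (2 * N + 1 - (1 + q * 1)) (pt Q L i (A ^ Q - 1)) z0)))
      (fun c hc c' hc' i hi i' hi' c1 => ?_) (fun c hc i hi c1 => ⟨?_, (cU _ _).glue c1 glue⟩)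
    · have m2 := (hs _ _ (lev (2 * (Q + 2)) (by omega)) (lev 1 (by omega)) z0 _ _
        (Cs_dep (b := false) (c := 1) (by simpa using fin_one_ne hk) _ 1)
        (Rs_dep (b := true) (c := 1) (by simpa using fin_one_ne hk) _ 1)).2
        (Cs_sub le_rfl) 1 (hp ▸ Rs_card (by omega) 1 1)
      rw [cnt_zero (P := fun z => Cs 1 1 _ ∧ _)
        (fun z _ c => (vpos_reg hA hQA hL _ 1 le_rfl).1 c.1), zero_add, one_mul, hpow,
        pow_one] at m2
      refine Nat.le_of_mul_le_mul_left ((m1.trans m2).trans ?_) hA0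
      nlinarith [Nat.mul_le_mul_left (k ^ (d + 1)) (show A + 1 ≤ 2 * A by omega)]
    · by_cases c1 : c = 0
      · simp only [c1, add_zero]
      have a2 := interval (fun _ => True) (A ^ Q) (A ^ Q - 1 + c) (by omega)
        (by omega) _ (hs.balR hcw (lev 1 (by omega)) (fun z => True ∧
          A ^ Q ≤ plc L z ∧ plc L z ≤ A ^ Q - 1 + c) (fun z z' c2 c3 => ?_)
          (fun z => Same l _ _ z z0) (fun _ _ c1 c2 => c1.symm.trans c2))
      · rw [a2]
        simp only [back0]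
      · obtain ⟨v1, v2, _⟩ := visit hk hA hQA hL false le_rfl c2
        have c4 : ¬ plc L z < A ^ Q := by omega
        have c5 := mt v1.2 c4
        have v3 := v2 (iff_of_false c4 (by decide)) (by omega) 0 (by omega)
        unfold cd at v3
        rw [if_neg c4, if_neg c5, if_pos rfl, if_pos rfl] at v3
        exact ⟨trivial, by omega, by omega⟩
    · have a3 := ptinj i hi i' hi' _ (by omega) _ (by omega) c1
      exact ⟨by omega, a3.2⟩
    · have a2 := (vpos_reg hA hQA hL (pt Q L i (A ^ Q - 1 + c) + 1) 0 le_rfl).2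
      have a3 : (vpos k q A Q L (pt Q L i (A ^ Q - 1 + c) + 1)).1 = 1 := by
        rw [← pt_succ]
        exact if_neg (by rw [(pt_val hi (by omega)).2]; omega)
      rwa [a3] at a2
  refine comb (a := fun i => msk l (N + d + (1 + q * 1)) (2 * N + 1 - p) (pt Q L i (A ^ Q - 1)))
    (b := fun i => msk l (N + d + p) (2 * N + 1 - (1 + q * 1)) (pt Q L i (A ^ Q - 1)))
    (fun P R => ?_) (fun i0 => ?_) (fun i0 => ?_) (fun x => ?_)
  · have b1 := hs.bal (lev 1 (by omega)) (lev 1 (by omega)) (fun x => ¬ x.1 = 0)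
      (fun x y c1 c2 c3 => c2 (by rw [← adr_fst false _ x, (wd_pre c1).1, adr_fst, c3]))
      (fun x y c1 c2 c3 => c2 (by rw [← adr_fst true _ x, (wd_pre c1).1, adr_fst, c3]))
      (fun z => P (msk l (N + d + (1 + q * 1)) (2 * N + 1 - p) z) ∧
        R (msk l (N + d + p) (2 * N + 1 - (1 + q * 1)) z)) (fun z z' c1 c2 => by
          have := lev 1 (by omega)
          rwa [← msk_eq.2 (c1.mono le_rfl (by omega)), ← msk_eq.2 (c1.mono (by omega) le_rfl)])
    have e : ∀ z : ZMod (Q * L), ¬ (vpos k q A Q L z).1 = 0 ↔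
        (True ∧ A ^ Q ≤ plc L z ∧ plc L z ≤ L - 1) := fun z => by
      have := (lap_lt z).2
      rw [vpos_fst hk]
      exact ⟨fun c => ⟨trivial, by omega, by omega⟩, fun c => by omega⟩
    simp only [e] at b1
    have b2 := interval (fun _ => True) (A ^ Q) (L - 1) (by omega) (by omega) _ b1
    simp only [back0, true_and] at b2
    rw [← b2]
    refine cnt_congr fun i hi => ?_
    have b3 := kVC ((i + 1) % Q) (Nat.mod_lt _ (by omega))
    rw [pt_mod, pt_mod, back1] at b3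
    rw [msk_eq.2 (kUR i (mem_range.1 hi)), msk_eq.2 b3]
  · exact le_trans (cnt_mono fun i _ c => ⟨by omega, msk_eq.1 c⟩) (degU 1 le_rfl (by omega) _)
  · exact le_trans (cnt_mono fun i _ c => ⟨trivial, msk_eq.1 c⟩) (degV _)
  · by_cases c : Q ≤ x
    · rw [cnt_zero fun i hi c' => by have := mem_range.1 hi; omega]
      exact Nat.zero_le _
    have hm : N + d + (1 + q * 1) ≤ N + d + (1 + q * (x + 1)) :=
      Nat.add_le_add_left (Nat.add_le_add_left (Nat.mul_le_mul_left _ (by omega)) _) _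
    have run : ∀ i < x, Same l (N + d + (1 + q * (x + 1))) (2 * N + 1 - p)
        (pt Q L i (A ^ Q - 1)) (pt Q L 0 (A ^ Q - 1)) := by
      intro i
      induction i with
      | zero => exact fun _ => Same.refl _ _ _ _
      | succ i ih =>
        intro hi
        have b1 := kUC (x + 1) (by omega) (i + 1) (by omega)
        rw [back1] at b1
        exact b1.trans (((kUR i (by omega)).mono hm le_rfl).trans (ih (by omega)))
    refine le_trans (cnt_mono ?_) (degU (x + 1) (by omega) (by omega) (pt Q L 0 (A ^ Q - 1)))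
    rintro i _ ⟨c1, i', c2, c3⟩
    exact ⟨by omega, ((msk_eq.1 c3).mono hm le_rfl).symm.trans (run i' c2)⟩

theorem not_rearr_far (hk : 2 ≤ k) {n d : ℕ} (hn : k ^ ((15 * d + 42) * k ^ (d + 1)) ≤ n) :
    ¬ Rearrangeable k n (2 * n - 1 + d) := by
  intro h
  obtain ⟨x, hx⟩ : ∃ x, x = k ^ (d + 1) := ⟨_, rfl⟩
  have hx2 : 2 ≤ x := hx ▸ hk.trans (Nat.le_self_pow (by omega) k)
  obtain ⟨E, hE⟩ : ∃ E, E = (3 * d + 8) * (2 * x + 1) := ⟨_, rfl⟩
  have hE1 : d + 2 ≤ E := by nlinarith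
  have hQ1 : E + 1 ≤ k ^ E := Nat.lt_pow_self (by omega)
  have h16 : 16 ≤ k ^ 4 := Nat.pow_le_pow_left hk 4
  have h32 : 32 ≤ k ^ 5 := Nat.pow_le_pow_left hk 5
  have e1 : k ^ (2 * E + 4) ≤ n := by
    refine le_trans (Nat.pow_le_pow_right (by omega) ?_) hn
    rw [← hx, hE]
    nlinarith [Nat.mul_le_mul_left d hx2]
  have e2 : 2 * (1 + (E + 1) * (3 * (k ^ E + 2))) + d ≤ n := by
    refine le_trans ?_ e1
    rw [pow_add, two_mul E, pow_add]
    generalize k ^ E = Q at hQ1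
    nlinarith [Nat.mul_le_mul_left (Q * Q) h16, Nat.mul_le_mul_right Q hQ1]
  obtain ⟨r, rfl⟩ : ∃ r, n = 1 + (E + 1) * (3 * (k ^ E + 2)) + r + 1 :=
    ⟨n - 1 - (1 + (E + 1) * (3 * (k ^ E + 2))), by omega⟩
  have e3 : 2 * k ^ E ≤ k ^ (E + 1) := by
    rw [pow_succ']
    exact Nat.mul_le_mul_right _ hk
  have e4 := comb_bound hk (q := E + 1) (A := k ^ (E + 1) - 1) (Q := k ^ E) (r := r) (d := d)
    (by omega) (by omega) (by omega) (by omega) (by
      rwa [show 2 * (1 + (E + 1) * (3 * (k ^ E + 2)) + r + 1) - 1 + d =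
        2 * (1 + (E + 1) * (3 * (k ^ E + 2)) + r) + 1 + d by omega] at h)
  rw [← hx] at e4
  have e5 : 2 * ((2 * x + 2 * x * (2 * x) + 1) * (2 * x) + 1) ≤ k ^ (3 * d + 8) := by
    rw [show k ^ (3 * d + 8) = k ^ 5 * (x * x * x) by rw [hx]; ring]
    nlinarith [Nat.mul_le_mul_right (x * x * x) h32, Nat.mul_le_mul_left (x * x) hx2,
      Nat.mul_le_mul_left x hx2]
  have e6 := (e4.trans_le (thr_le (Nat.succ_pos _) _)).trans_le (Nat.pow_le_pow_left e5 _)
  rw [← pow_mul, ← hE] at e6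
  exact lt_irrefl _ e6

omit [NeZero k] in
theorem stages_far (hk : 2 ≤ k) {n d : ℕ} (hn : k ^ ((15 * d + 42) * k ^ (d + 1)) ≤ n) :
    2 * n + d + 1 ≤ stages k n := by
  have : NeZero k := ⟨by omega⟩
  have h2 : 2 ≤ n :=
    (hk.trans (Nat.le_self_pow (Nat.mul_pos (by omega) (Nat.pow_pos (by omega))).ne' k)).trans hn
  have hmem : 3 * n - 3 ∈ {r : ℕ | 2 ≤ r ∧ Rearrangeable k n (r - 1)} :=
    ⟨by omega, rearr_upper h2⟩
  by_contra hlt
  have h := Nat.sInf_mem ⟨_, hmem⟩
  refine not_rearr_far hk hn (rearr_mono h2 ?_ h.2)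
  unfold stages at hlt
  omega

end Pool.Agent.Lib.MP_ec5f85_co
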