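import Pool.Agent.Lib.MP_ec5f85_co.Mid

set_option autoImplicit false

/-! Row and column addresses of the atoms. -/

namespace Pool.Agent.Lib.MP_ec5f85_co

open Finset

/-- Groups of `H` blocks of `q` letters. -/
abbrev Grp (k q H : ℕ) := Fin H → Fin (k ^ q)

/-- Names of the atoms. -/
abbrev Atm (k q H : ℕ) := Fin k × Grp k q H × Grp k q H × Grp k q H

variable {k q H : ℕ} [NeZero k]

lemma card_grp : Fintype.card (Grp k q H) = k ^ (q * H) := by
  simp [pow_mul]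

lemma card_atm : Fintype.card (Atm k q H) = k ^ (1 + q * (3 * H)) := by
  simp only [Fintype.card_prod, card_grp, Fintype.card_fin]
  ring

/-- The blocks of a name. -/
def fl (x : Atm k q H) (m : ℕ) : Fin (k ^ q) :=
  if h : m < H then x.2.1 ⟨m, h⟩ else if h : m - H < H then x.2.2.1 ⟨m - H, h⟩
  else if h : m - 2 * H < H then x.2.2.2 ⟨m - 2 * H, h⟩ else 0

/-- The letters of a name. -/
def wd (x : Atm k q H) (j : ℕ) : Fin k :=
  if j = 0 then x.1 else dig (fl x ((j - 1) / q)) ((j - 1) % q)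

lemma wd_pre {x y : Atm k q H} {n : ℕ} (h : ∀ j < 1 + q * n, wd x j = wd y j) :
    x.1 = y.1 ∧ ∀ m < n, fl x m = fl y m := by
  refine ⟨by simpa [wd] using h 0 (by omega), fun m hm => dig_inj fun j hj => ?_⟩
  have h1 : q * (m + 1) ≤ q * n := Nat.mul_le_mul_left q hm
  rw [Nat.mul_succ] at h1
  have := h (q * m + j + 1) (by omega)
  simp only [wd, Nat.add_sub_cancel, Nat.succ_ne_zero, if_false] at this
  rwa [Nat.mul_add_div (by omega), Nat.mul_add_mod, Nat.div_eq_of_lt hj, Nat.mod_eq_of_lt hj,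
    add_zero] at this

lemma wd_one {x y : Atm k q H} {n : ℕ} (h : ∀ j < 1 + q * n, wd x j = wd y j) (m : Fin H)
    (hm : (m : ℕ) < n) : x.2.1 m = y.2.1 m := by
  simpa only [fl, m.2, dif_pos] using (wd_pre h).2 m hm

lemma wd_two {x y : Atm k q H} {n : ℕ} (hn : 2 * H ≤ n) (h : ∀ j < 1 + q * n, wd x j = wd y j) :
    x.2.1 = y.2.1 ∧ x.2.2.1 = y.2.2.1 := by
  refine ⟨funext fun m => wd_one h m (by have := m.2; omega), funext fun m => ?_⟩
  have e1 : ¬ H + m < H := by omega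
  simpa only [fl, e1, dif_neg, not_false_eq_true, Nat.add_sub_cancel_left, m.2, dif_pos] using
    (wd_pre h).2 (H + m) (by have := m.2; omega)

lemma wd_inj {x y : Atm k q H} (h : ∀ j < 1 + q * (3 * H), wd x j = wd y j) : x = y := by
  have h1 := wd_two (by omega) h
  refine Prod.ext (wd_pre h).1 (Prod.ext h1.1 (Prod.ext h1.2 (funext fun m => ?_)))
  have e1 : ¬ 2 * H + m < H := by omega
  have e2 : ¬ 2 * H + m - H < H := by omega
  simpa only [fl, e1, e2, dif_neg, not_false_eq_true, Nat.add_sub_cancel_left, m.2, dif_pos] using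
    (wd_pre h).2 (2 * H + m) (by have := m.2; omega)

variable [NeZero H]

/-- The first exchange of names. -/
def chi (x : Atm k q H) : Atm k q H :=
  if x.2.1 = 0 ∧ x.2.2.2 = 0 then (x.1, 1, 0, x.2.2.1)
  else if x.2.1 = 1 ∧ x.2.2.1 = 0 then (x.1, 0, x.2.2.2, 0) else x

/-- The second exchange of names. -/
def psi (x : Atm k q H) : Atm k q H :=
  if x.2.1 0 ≠ 0 ∧ x.2.2.2 0 ≠ 0 then (x.1, x.2.2.2, x.2.2.1, x.2.1) else x

/-- The shift of names by the block `m` of the second group. -/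
def shf (m : Fin H) (x : Atm k q H) : Atm k q H :=
  (x.1, x.2.1 + fun _ => x.2.2.1 m, x.2.2.1, x.2.2.2)

lemma one0 (h : 2 ≤ k ^ q) : (1 : Grp k q H) 0 ≠ 0 := by
  intro c
  have := congrArg Fin.val c
  rw [Pi.one_apply, Fin.val_one', Nat.mod_eq_of_lt h] at this
  exact one_ne_zero this

lemma chi_chi (h : 2 ≤ k ^ q) : Function.Involutive (chi : Atm k q H → Atm k q H) := by
  have h1 : (1 : Grp k q H) ≠ 0 := fun c => one0 h (congrFun c 0)
  rintro ⟨c, g1, g2, g3⟩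
  by_cases c1 : g1 = 0 ∧ g3 = 0
  · obtain ⟨rfl, rfl⟩ := c1
    simp [chi, h1]
  by_cases c2 : g1 = 1 ∧ g2 = 0
  · obtain ⟨rfl, rfl⟩ := c2
    simp [chi, h1]
  · simp only [chi, c1, c2, if_false]

lemma psi_psi : Function.Involutive (psi : Atm k q H → Atm k q H) := by
  rintro ⟨c, g1, g2, g3⟩
  by_cases c1 : g1 0 ≠ 0 ∧ g3 0 ≠ 0
  · simp [psi, c1.1, c1.2]
  · simp only [psi, c1, if_false]

omit [NeZero H] in
lemma shf_pre {m : Fin H} {x y : Atm k q H} (h1 : (shf m x).2.1 = (shf m y).2.1)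
    (h2 : (shf m x).2.2.1 = (shf m y).2.2.1) : x.2.1 = y.2.1 ∧ x.2.2.1 = y.2.2.1 := by
  simp only [shf] at h1 h2
  rw [h2] at h1
  exact ⟨add_right_cancel h1, h2⟩

lemma mix_fst (x : Atm k q H) : (psi (chi x)).1 = x.1 := by
  unfold psi chi
  split_ifs <;> rfl

lemma mix_pos (h : 2 ≤ k ^ q) (c : Fin k) (g : Grp k q H) (hg : g 0 ≠ 0) :
    psi (chi (c, 0, g, 0)) = (c, g, 0, 1) := by
  have := one0 (H := H) h
  simp only [chi, and_self, if_true, psi, ne_eq, this, hg, not_false_eq_true]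

/-- The address that mixes in cluster `c` and shifts elsewhere, or the other way round. -/
def adr (b : Bool) (m : Fin H) (x : Atm k q H) : Atm k q H :=
  if (x.1 = 0 ↔ b) then psi (chi x) else shf m x

lemma adr_fst (b : Bool) (m : Fin H) (x : Atm k q H) : (adr b m x).1 = x.1 := by
  unfold adr
  split_ifs
  · exact mix_fst x
  · rfl

lemma adr_inj (h : 2 ≤ k ^ q) (b : Bool) (m : Fin H) (x y : Atm k q H)
    (c : ∀ j < 1 + q * (3 * H), wd (adr b m x) j = wd (adr b m y) j) : x = y := by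
  have c1 := wd_inj c
  have c2 : x.1 = y.1 := by rw [← adr_fst b m x, c1, adr_fst]
  unfold adr at c1
  rw [c2] at c1
  split_ifs at c1
  · exact (chi_chi h).injective (psi_psi.injective c1)
  · have := shf_pre (congrArg (·.2.1) c1) (congrArg (·.2.2.1) c1)
    exact Prod.ext c2 (Prod.ext this.1 (Prod.ext this.2 (congrArg (·.2.2.2) c1)))

/-- The small set of a region. -/
def Cs (c : Fin k) (n : ℕ) (x : Atm k q H) : Prop :=
  x.1 = c ∧ ∀ m : Fin H, (m : ℕ) < n → (psi (chi x)).2.1 m = 0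

/-- The large set of a region. -/
def Rs (c : Fin k) (n : ℕ) (x : Atm k q H) : Prop :=
  x.1 = c ∧ ((∀ m : Fin H, (m : ℕ) < n → x.2.1 m = 0) ∨ (x.2.1 = 1 ∧ x.2.2.1 = 0))

lemma Cs_sub {c : Fin k} {n : ℕ} (hn : 1 ≤ n) (x : Atm k q H) (hx : Cs c n x) :
    Rs c n x := by
  refine ⟨hx.1, ?_⟩
  have h0 := hx.2 0 (by rw [Fin.val_zero]; omega)
  have h1 : psi (chi x) = chi x := by
    by_cases c1 : (chi x).2.1 0 ≠ 0 ∧ (chi x).2.2.2 0 ≠ 0
    · simp only [psi, if_pos c1] at h0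
      exact (c1.2 h0).elim
    · simp only [psi, if_neg c1]
  have h2 := hx.2
  rw [h1] at h0 h2
  by_cases c1 : x.2.1 = 0 ∧ x.2.2.2 = 0
  · exact Or.inl fun m _ => congrFun c1.1 m
  by_cases c2 : x.2.1 = 1 ∧ x.2.2.1 = 0
  · exact Or.inr c2
  · simp only [chi, if_neg c1, if_neg c2] at h2
    exact Or.inl h2

lemma Rs_card (h : 2 ≤ k ^ q) (c : Fin k) (n : ℕ) :
    cnt univ (Rs c n : Atm k q H → Prop) ≤ cnt univ (Cs c n : Atm k q H → Prop) +
      1 * k ^ (1 + q * (3 * H) - (1 + q * (2 * H))) := by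
  have e1 : cnt univ (Cs c n : Atm k q H → Prop) = cnt univ (fun x : Atm k q H =>
      x.1 = c ∧ ∀ m : Fin H, (m : ℕ) < n → x.2.1 m = 0) := by
    rw [← cnt_equiv ((chi_chi h).toPerm.trans psi_psi.toPerm) (fun x : Atm k q H =>
      x.1 = c ∧ ∀ m : Fin H, (m : ℕ) < n → x.2.1 m = 0)]
    refine cnt_congr fun x _ => and_congr_left fun _ => ?_
    exact (congrArg (· = c) (mix_fst x)).symm.to_iff
  have e2 : 1 + q * (3 * H) - (1 + q * (2 * H)) = q * H := by
    rw [show q * (3 * H) = q * (2 * H) + q * H by ring]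
    omega
  rw [e1, e2, one_mul, ← card_grp, ← card_univ, ← cnt_true]
  refine le_trans (cnt_mono (P' := fun x : Atm k q H =>
    (x.1 = c ∧ ∀ m : Fin H, (m : ℕ) < n → x.2.1 m = 0) ∨ (x.1 = c ∧ x.2.1 = 1 ∧ x.2.2.1 = 0))
    fun x _ hx => and_or_left.1 hx) ((cnt_or_le _ _ _).trans (Nat.add_le_add_left ?_ _))
  refine cnt_le_of_inj (fun x => x.2.2.2) (fun _ _ _ => ⟨mem_univ _, trivial⟩) ?_
  intro x _ y _ c1 c2 c3
  exact Prod.ext (c1.1.trans c2.1.symm) (Prod.ext (c1.2.1.trans c2.2.1.symm)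
    (Prod.ext (c1.2.2.trans c2.2.2.symm) c3))

lemma Cs_dep {b : Bool} {c : Fin k} (hc : c = 0 ↔ b) (m : Fin H) (n : ℕ) :
    Dep (fun x : Atm k q H => wd (adr b m x)) (1 + q * n) (Cs c n) := by
  intro x y h hx
  have c1 : y.1 = c := by rw [← adr_fst b m y, ← (wd_pre h).1, adr_fst, hx.1]
  refine ⟨c1, fun j hj => ?_⟩
  have := wd_one h j hj
  simp only [adr, hx.1, c1, hc, if_true] at this
  rw [← this, hx.2 j hj]

lemma Rs_dep {b : Bool} {c : Fin k} (hc : ¬ (c = 0 ↔ b)) (m : Fin H) (n : ℕ) :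
    Dep (fun x : Atm k q H => wd (adr b m x)) (1 + q * (2 * H)) (Rs c n) := by
  intro x y h hx
  have c1 : y.1 = c := by rw [← adr_fst b m y, ← (wd_pre h).1, adr_fst, hx.1]
  have := wd_two le_rfl h
  simp only [adr, hx.1, c1, hc, if_false] at this
  have c2 := shf_pre this.1 this.2
  refine ⟨c1, ?_⟩
  rw [← c2.1, ← c2.2]
  exact hx.2

/-- Facts on the addresses of two visited atoms with a common beginning. -/
lemma vis (h : 2 ≤ k ^ q) (b : Bool) (m : Fin H) {c c' : Fin k} {g g' : Grp k q H} (hg : g 0 ≠ 0)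
    (hg' : g' 0 ≠ 0) {n : ℕ} (hn : 1 ≤ n)
    (e : ∀ j < 1 + q * n, wd (adr b m (c, 0, g, 0)) j = wd (adr b m (c', 0, g', 0)) j) :
    c = c' ∧ ((c = 0 ↔ b) → ∀ i : Fin H, (i : ℕ) < n → g i = g' i) ∧
      (¬ (c = 0 ↔ b) → g m = g' m) ∧ (2 * H ≤ n → g = g') := by
  have c1 : c = c' := by simpa only [adr_fst] using (wd_pre e).1
  subst c1
  by_cases hc : c = 0 ↔ b
  · simp only [adr, hc, if_true, mix_pos h c g hg, mix_pos h c g' hg'] at e
    exact ⟨rfl, fun _ i hi => wd_one e i hi, fun c => (c hc).elim, fun c => (wd_two c e).1⟩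
  · simp only [adr, hc, if_false] at e
    refine ⟨rfl, fun c => (hc c).elim, fun _ => ?_, fun c => (wd_two c e).2⟩
    simpa [shf] using wd_one e 0 (by rw [Fin.val_zero]; omega)

end Pool.Agent.Lib.MP_ec5f85_co
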