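import Pool.Agent.Lib.MP_ec5f85_co.Words

set_option autoImplicit false

/-! A mask with no routing through `2 * N` levels of edges. -/

namespace Pool.Agent.Lib.MP_ec5f85_co

open Finset

section
variable {ι : Type} [Fintype ι] {k : ℕ}

lemma Inj.surj {N s : ℕ} {l : ι → ℕ → Fin k} (hc : Fintype.card ι = k ^ (N + 1))
    (h : Inj l N s) (w : ℕ → Fin k) : ∃ e, ∀ j ≤ N, l e (s + j) = w j := by
  have hb : Function.Bijective fun e => fun j : Fin (N + 1) => l e (s + j) := by
    rw [Fintype.bijective_iff_injective_and_card]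
    refine ⟨fun e e' he => h e e' fun j hj => congrFun he ⟨j, by omega⟩, by simp [hc]⟩
  obtain ⟨e, he⟩ := hb.2 fun j => w j
  exact ⟨e, fun j hj => congrFun he ⟨j, by omega⟩⟩

lemma Inj.bal {N s : ℕ} {l : ι → ℕ → Fin k} (hc : Fintype.card ι = k ^ (N + 1))
    (h : Inj l N s) (j0 : ℕ) (hj0 : j0 ≤ N) (Z : ι → Prop) [DecidablePred Z]
    (hZ : ∀ e e', (∀ j ≤ N, j ≠ j0 → l e (s + j) = l e' (s + j)) → Z e → Z e') (v v' : Fin k) :
    (univ.filter fun e => Z e ∧ l e (s + j0) = v).card =
      (univ.filter fun e => Z e ∧ l e (s + j0) = v').card := by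
  have key : ∀ v v' : Fin k, (univ.filter fun e => Z e ∧ l e (s + j0) = v).card ≤
      (univ.filter fun e => Z e ∧ l e (s + j0) = v').card := by
    intro v v'
    choose mv hmv using fun e => h.surj hc fun j => if j = j0 then v' else l e (s + j)
    refine card_le_card_of_injOn mv (fun e he => ?_) (fun e he e' he' hee => ?_)
    · have he := (mem_filter.1 (mem_coe.1 he)).2
      refine mem_coe.2 (mem_filter.2 ⟨mem_univ _, hZ e _ (fun j hj hj' => ?_) he.1, ?_⟩)
      · simpa [hj'] using (hmv e j hj).symm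
      · simpa using hmv e j0 hj0
    · have he := (mem_filter.1 (mem_coe.1 he)).2
      have he' := (mem_filter.1 (mem_coe.1 he')).2
      refine h e e' fun j hj => ?_
      by_cases hj' : j = j0
      · rw [hj', he.2, he'.2]
      · have h1 := hmv e j hj
        have h2 := hmv e' j hj
        rw [hee, h2] at h1
        simpa [hj'] using h1.symm
  exact le_antisymm (key v v') (key v' v)

lemma forced [DecidableEq ι] (x : ι → Fin k) (Z : ι → Prop) [DecidablePred Z] (e0 e1 : ι)
    (h0 : Z e0) (h1 : ¬ Z e1)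
    (hZ : ∀ v v', (univ.filter fun e => Z e ∧ x e = v).card =
      (univ.filter fun e => Z e ∧ x e = v').card)
    (hZ' : ∀ v v', (univ.filter fun e => Z (Equiv.swap e0 e1 e) ∧ x e = v).card =
      (univ.filter fun e => Z (Equiv.swap e0 e1 e) ∧ x e = v').card) : x e0 = x e1 := by
  by_contra hne
  have hne' : e0 ≠ e1 := fun h => h1 (h ▸ h0)
  have a1 : (univ.filter fun e => Z (Equiv.swap e0 e1 e) ∧ x e = x e0) ⊂
      univ.filter fun e => Z e ∧ x e = x e0 := by
    refine (ssubset_iff_of_subset fun e he => ?_).2 ⟨e0, by simp [h0], by simp [h1]⟩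
    have he := (mem_filter.1 he).2
    by_cases c0 : e = e0
    · simp [c0, h0]
    by_cases c1 : e = e1
    · exact (hne (c1 ▸ he.2).symm).elim
    · rw [Equiv.swap_apply_of_ne_of_ne c0 c1] at he
      exact mem_filter.2 ⟨mem_univ _, he⟩
  have a2 : (univ.filter fun e => Z e ∧ x e = x e1) ⊆
      univ.filter fun e => Z (Equiv.swap e0 e1 e) ∧ x e = x e1 := by
    intro e he
    have he := (mem_filter.1 he).2
    by_cases c0 : e = e0
    · exact (hne (c0 ▸ he.2)).elim
    by_cases c1 : e = e1
    · exact (h1 (c1 ▸ he.1)).elim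
    · refine mem_filter.2 ⟨mem_univ _, ?_⟩
      rwa [Equiv.swap_apply_of_ne_of_ne c0 c1]
  have b1 := card_lt_card a1
  have b2 := card_le_card a2
  have b3 := hZ (x e0) (x e1)
  have b4 := hZ' (x e0) (x e1)
  omega

end

variable {k N : ℕ}

/-- The left word of an item. -/
def lw (k N : ℕ) (e : (Fin N → Fin (k + 3)) × Fin (k + 3)) (j : ℕ) : Fin (k + 3) :=
  if h : j < N then e.1 ⟨j, h⟩ else 0

/-- The twist. -/
def tw (k : ℕ) (x : Fin (k + 3)) : Equiv.Perm (Fin (k + 3)) :=
  if x = 0 then Equiv.swap 0 2 else if x = 1 then Equiv.swap 0 1 else 1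

/-- The right word of an item before the exchange. -/
def rw0 (k N : ℕ) (e : (Fin N → Fin (k + 3)) × Fin (k + 3)) (j : ℕ) : Fin (k + 3) :=
  if j = 0 then tw k (lw k N e (N - 2)) (lw k N e (N - 1))
  else if j = 1 then lw k N e (N - 2) else lw k N e (j - 2)

lemma lw_inj {e e' : (Fin N → Fin (k + 3)) × Fin (k + 3)}
    (h : ∀ j < N, lw k N e j = lw k N e' j) (h2 : e.2 = e'.2) : e = e' := by
  refine Prod.ext (funext fun j => ?_) h2
  simpa [lw] using h j j.2

lemma rw0_last {e e' : (Fin N → Fin (k + 3)) × Fin (k + 3)}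
    (h0 : rw0 k N e 0 = rw0 k N e' 0) (h1 : rw0 k N e 1 = rw0 k N e' 1) :
    lw k N e (N - 2) = lw k N e' (N - 2) ∧ lw k N e (N - 1) = lw k N e' (N - 1) := by
  simp only [rw0, if_true, one_ne_zero, if_false] at h0 h1
  rw [h1] at h0
  exact ⟨h1, (tw k _).injective h0⟩

lemma rw0_inj (hN : 2 ≤ N) {e e' : (Fin N → Fin (k + 3)) × Fin (k + 3)}
    (h : ∀ j < N, rw0 k N e j = rw0 k N e' j) (h2 : e.2 = e'.2) : e = e' := by
  obtain ⟨h3, h4⟩ := rw0_last (h 0 (by omega)) (h 1 (by omega))
  refine lw_inj (fun j hj => ?_) h2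
  by_cases c1 : j = N - 1
  · rw [c1]; exact h4
  by_cases c2 : j = N - 2
  · rw [c2]; exact h3
  simpa [rw0] using h (j + 2) (by omega)

lemma n01 : (0 : Fin (k + 3)) ≠ 1 := by simp
lemma n02 : (0 : Fin (k + 3)) ≠ 2 := by
  intro h
  have := congrArg Fin.val h
  simp [Nat.mod_eq_of_lt] at this
lemma n12 : (1 : Fin (k + 3)) ≠ 2 := by
  intro h
  have := congrArg Fin.val h
  simp [Nat.mod_eq_of_lt] at this

lemma tw00 : tw k 0 0 = 2 := by simp [tw]
lemma tw11 : tw k 1 1 = 0 := by simp [tw]
lemma tw2 (x : Fin (k + 3)) : tw k x 2 = 0 ∨ tw k x 2 = 2 := by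
  unfold tw
  split_ifs
  · simp
  · exact Or.inr (Equiv.swap_apply_of_ne_of_ne n02.symm n12.symm)
  · simp

theorem no_route (hN : 2 ≤ N) :
    ∃ a b : (Fin N → Fin (k + 3)) × Fin (k + 3) → ℕ → Fin (k + 3),
      Fib a N ∧ Fib b N ∧ ¬ Route a b N (2 * N) := by
  have hc : Fintype.card ((Fin N → Fin (k + 3)) × Fin (k + 3)) = (k + 3) ^ (N + 1) := by
    simp [pow_succ]
  let e0 : (Fin N → Fin (k + 3)) × Fin (k + 3) := (fun _ => 0, 0)
  let e1 : (Fin N → Fin (k + 3)) × Fin (k + 3) := (fun _ => 1, 0)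
  have a0 : ∀ j < N, lw k N e0 j = 0 := fun j hj => by simp [lw, hj, e0]
  have a1 : ∀ j < N, lw k N e1 j = 1 := fun j hj => by simp [lw, hj, e1]
  have r0 : rw0 k N e0 0 = 2 := by
    simp only [rw0, if_true]
    rw [a0 _ (by omega), a0 _ (by omega), tw00]
  have r1 : rw0 k N e1 0 = 0 := by
    simp only [rw0, if_true]
    rw [a1 _ (by omega), a1 _ (by omega), tw11]
  refine ⟨lw k N, fun e => rw0 k N (Equiv.swap e0 e1 e), ?_, ?_, ?_⟩
  · exact reg_of_inj hc _ (fun e => e.2) fun e e' h1 h2 =>
      lw_inj (fun j hj => congrFun h1 ⟨j, hj⟩) h2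
  · exact reg_of_inj hc _ (fun e => (Equiv.swap e0 e1 e).2) fun e e' h1 h2 =>
      (Equiv.swap e0 e1).injective (rw0_inj hN (fun j hj => congrFun h1 ⟨j, hj⟩) h2)
  rintro ⟨l, hl1, hl2, hl3⟩
  beta_reduce at hl2
  have hx : ∀ t, N ≤ t → t < 2 * N → l e0 t = l e1 t := by
    intro t ht ht'
    by_cases c : t < 2 * N - 1
    · refine forced (fun e => l e t) (fun e => rw0 k N e 0 = 2) e0 e1 r0
        (by rw [r1]; exact n02) ?_ ?_
      · have := (hl3 (N - 2) (by omega)).bal hc (t - (N - 2)) (by omega)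
          (fun e => rw0 k N e 0 = 2) (by
            intro e e' h hz
            have h1 := h 0 (by omega) (by omega)
            have h2 := h 1 (by omega) (by omega)
            have h3 : N - 2 + 1 = N - 1 := by omega
            rw [h3, hl1 _ _ (by omega), hl1 _ _ (by omega)] at h2
            rw [add_zero, hl1 _ _ (by omega), hl1 _ _ (by omega)] at h1
            simp only [rw0, if_true] at hz ⊢
            rw [← h1, ← h2, hz])
        rwa [Nat.add_sub_cancel' (by omega)] at this
      · have := (hl3 N (by omega)).bal hc (t - N) (by omega)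
          (fun e => rw0 k N (Equiv.swap e0 e1 e) 0 = 2) (by
            intro e e' h hz
            have h1 := h N le_rfl (by omega)
            have h3 : N + N = 2 * N + 0 := by omega
            rw [h3, hl2 _ _ (by omega), hl2 _ _ (by omega)] at h1
            rw [← h1, hz])
        rwa [Nat.add_sub_cancel' (by omega)] at this
    · refine forced (fun e => l e t) (fun e => lw k N e (N - 1) = 0) e0 e1 (a0 _ (by omega))
        (by rw [a1 _ (by omega)]; exact n01.symm) ?_ ?_
      · have := (hl3 (N - 1) (by omega)).bal hc (t - (N - 1)) (by omega)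
          (fun e => lw k N e (N - 1) = 0) (by
            intro e e' h hz
            have h1 := h 0 (by omega) (by omega)
            rw [add_zero, hl1 _ _ (by omega), hl1 _ _ (by omega)] at h1
            rw [← h1, hz])
        rwa [Nat.add_sub_cancel' (by omega)] at this
      · have := (hl3 (2 * N - 1) (by omega)).bal hc 0 (by omega)
          (fun e => lw k N (Equiv.swap e0 e1 e) (N - 1) = 0) (by
            intro e e' h hz
            have h1 := h 1 (by omega) (by omega)
            have h2 := h 2 (by omega) (by omega)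
            have h3 : 2 * N - 1 + 1 = 2 * N + 0 := by omega
            have h4 : 2 * N - 1 + 2 = 2 * N + 1 := by omega
            rw [h3, hl2 _ _ (by omega), hl2 _ _ (by omega)] at h1
            rw [h4, hl2 _ _ (by omega), hl2 _ _ (by omega)] at h2
            rw [← (rw0_last h1 h2).2, hz])
        have h5 : 2 * N - 1 + 0 = t := by omega
        rwa [h5] at this
  obtain ⟨e2, he2⟩ := (hl3 (N - 1) (by omega)).surj hc
    fun j => if j = 0 then 2 else l e0 (N - 1 + j)
  have b2 : lw k N e2 (N - 1) = 2 := by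
    have := he2 0 (by omega)
    rw [add_zero, hl1 _ _ (by omega)] at this
    simpa using this
  have c0 : e2 ≠ e0 := fun h => n02 (by rw [← b2, h, a0 _ (by omega)])
  have c1 : e2 ≠ e1 := fun h => n12 (by rw [← b2, h, a1 _ (by omega)])
  have hx2 : ∀ j < N, l e2 (N + j) = l e0 (N + j) := by
    intro j hj
    have := he2 (j + 1) (by omega)
    have h3 : N - 1 + (j + 1) = N + j := by omega
    simpa [h3] using this
  have h3 : N + N = 2 * N + 0 := by omega
  have l2 : l e2 (N + N) = tw k (lw k N e2 (N - 2)) 2 := by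
    rw [h3, hl2 _ _ (by omega), Equiv.swap_apply_of_ne_of_ne c0 c1]
    simp only [rw0, if_true]
    rw [b2]
  rcases tw2 (lw k N e2 (N - 2)) with h | h
  · refine c0 (hl3 N (by omega) e2 e0 fun j hj => ?_)
    by_cases c : j < N
    · exact hx2 j c
    · have : j = N := by omega
      rw [this, l2, h, h3, hl2 _ _ (by omega), Equiv.swap_apply_left, r1]
  · refine c1 (hl3 N (by omega) e2 e1 fun j hj => ?_)
    by_cases c : j < N
    · rw [hx2 j c, hx _ (by omega) (by omega)]
    · have : j = N := by omega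
      rw [this, l2, h, h3, hl2 _ _ (by omega), Equiv.swap_apply_right, r0]

end Pool.Agent.Lib.MP_ec5f85_co
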