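import Pool.Agent.Lib.MP_ec5f85_co.Phys

set_option autoImplicit false

/-! Conservation laws along a cycle of exchanged items. -/

namespace Pool.Agent.Lib.MP_ec5f85_co

open Finset

variable {k : ℕ}

section
variable {ι : Type} {l : ι → ℕ → Fin k} {lo hi lo' hi' : ℕ} {x y z : ι}

lemma Same.refl (l : ι → ℕ → Fin k) (lo hi : ℕ) (x : ι) : Same l lo hi x x := fun _ _ _ => rfl

lemma Same.symm (h : Same l lo hi x y) : Same l lo hi y x := fun u h1 h2 => (h u h1 h2).symm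

lemma Same.trans (h : Same l lo hi x y) (h' : Same l lo hi y z) : Same l lo hi x z :=
  fun u h1 h2 => (h u h1 h2).trans (h' u h1 h2)

lemma Same.mono (h : Same l lo hi x y) (h1 : lo ≤ lo') (h2 : hi' ≤ hi) : Same l lo' hi' x y :=
  fun u c1 c2 => h u (by omega) (by omega)

lemma Same.glue (h : Same l lo hi x y) (h' : Same l lo' hi' x y) (h1 : lo' ≤ hi) :
    Same l lo hi' x y :=
  fun u c1 c2 => if c : u < hi then h u c1 c else h' u (by omega) c2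

/-- The letters from `lo` up to but not including `hi`. -/
def msk [NeZero k] (l : ι → ℕ → Fin k) (lo hi : ℕ) (x : ι) (u : ℕ) : Fin k :=
  if lo ≤ u ∧ u < hi then l x u else 0

lemma msk_eq [NeZero k] : msk l lo hi x = msk l lo hi y ↔ Same l lo hi x y := by
  refine ⟨fun h u h1 h2 => ?_, fun h => funext fun u => ?_⟩
  · simpa only [msk, h1, h2, and_self, if_true] using congrFun h u
  · unfold msk
    split_ifs with c
    · exact h u c.1 c.2
    · rfl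

end

section
variable {T S : Type} [Fintype T] [Fintype S] {rw cw : T → ℕ → Fin k} {pos : S → T} {nxt : S → S}
  {p N d : ℕ} {l : S → ℕ → Fin k}

lemma Sys.bal (h : Sys rw cw pos nxt p N d l) {s t : ℕ} (hs : s ≤ p) (ht : t ≤ p) (Z : T → Prop)
    (h1 : Dep rw t Z) (h2 : Dep cw s Z) (Pr : S → Prop)
    (hPr : ∀ z z', Same l (N + d + s) (2 * N + 1 - t) z z' → Pr z → Pr z') :
    cnt univ (fun z => Z (pos z) ∧ Pr z) = cnt univ (fun z => Z (pos (nxt z)) ∧ Pr z) := by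
  let f : S → Fin (2 * N + 1 - t - (N + d + s)) → Fin k := fun z j => l z (N + d + s + j)
  have hf : ∀ z z', f z = f z' ↔ Same l (N + d + s) (2 * N + 1 - t) z z' := by
    refine fun z z' => ⟨fun c u c1 c2 => ?_, fun c => funext fun j => ?_⟩
    · have := congrFun c ⟨u - (N + d + s), by omega⟩
      have e1 : N + d + s + (u - (N + d + s)) = u := by omega
      simpa only [f, e1] using this
    · exact c _ (by omega) (by have := j.2; omega)
  rw [cnt_fiber univ _ f, cnt_fiber univ (fun z => Z (pos (nxt z)) ∧ Pr z) f]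
  refine sum_congr rfl fun w _ => ?_
  by_cases c : ∃ z0, Pr z0 ∧ f z0 = w
  · obtain ⟨z0, c1, rfl⟩ := c
    have e : ∀ Y : S → Prop, cnt univ (fun z => (Y z ∧ Pr z) ∧ f z = f z0) =
        cnt univ (fun z => Y z ∧ Same l (N + d + s) (2 * N + 1 - t) z z0) := fun Y =>
      cnt_congr fun z _ => ⟨fun c => ⟨c.1.1, (hf _ _).1 c.2⟩,
        fun c => ⟨⟨c.1, hPr _ _ c.2.symm c1⟩, (hf _ _).2 c.2⟩⟩
    rw [e, e]
    have := h s t hs ht z0 Z Z h1 h2
    have a1 := this.1 (fun _ c => c) 0 (by omega)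
    have a2 := this.2 (fun _ c => c) 0 (by omega)
    omega
  · rw [cnt_zero fun z _ c' => c ⟨z, c'.1.2, c'.2⟩, cnt_zero fun z _ c' => c ⟨z, c'.1.2, c'.2⟩]

lemma Sys.balC (h : Sys rw cw pos nxt p N d l)
    (hrw : ∀ x y, (∀ j < p, rw x j = rw y j) → x = y) {s : ℕ} (hs : s ≤ p) (Z : S → Prop)
    (hZ : ∀ z z', (∀ j < s, cw (pos z) j = cw (pos z') j) → Z z → Z z') (Pr : S → Prop)
    (hPr : ∀ z z', Same l (N + d + s) (2 * N + 1 - p) z z' → Pr z → Pr z') :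
    cnt univ (fun z => Z z ∧ Pr z) = cnt univ (fun z => Z (nxt z) ∧ Pr z) := by
  have e : ∀ z, (∃ z', Z z' ∧ ∀ j < s, cw (pos z') j = cw (pos z) j) ↔ Z z :=
    fun z => ⟨fun ⟨z', c1, c2⟩ => hZ _ _ c2 c1, fun c => ⟨z, c, fun _ _ => rfl⟩⟩
  have := h.bal hs le_rfl (fun x => ∃ z', Z z' ∧ ∀ j < s, cw (pos z') j = cw x j)
    (fun x y c1 c2 => hrw x y c1 ▸ c2)
    (fun x y c1 ⟨z', c2, c3⟩ => ⟨z', c2, fun j hj => (c3 j hj).trans (c1 j hj)⟩) Pr hPr
  simpa only [e] using this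

lemma Sys.balR (h : Sys rw cw pos nxt p N d l)
    (hcw : ∀ x y, (∀ j < p, cw x j = cw y j) → x = y) {t : ℕ} (ht : t ≤ p) (Z : S → Prop)
    (hZ : ∀ z z', (∀ j < t, rw (pos z) j = rw (pos z') j) → Z z → Z z') (Pr : S → Prop)
    (hPr : ∀ z z', Same l (N + d + p) (2 * N + 1 - t) z z' → Pr z → Pr z') :
    cnt univ (fun z => Z z ∧ Pr z) = cnt univ (fun z => Z (nxt z) ∧ Pr z) := by
  have e : ∀ z, (∃ z', Z z' ∧ ∀ j < t, rw (pos z') j = rw (pos z) j) ↔ Z z :=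
    fun z => ⟨fun ⟨z', c1, c2⟩ => hZ _ _ c2 c1, fun c => ⟨z, c, fun _ _ => rfl⟩⟩
  have := h.bal le_rfl ht (fun x => ∃ z', Z z' ∧ ∀ j < t, rw (pos z') j = rw x j)
    (fun x y c1 ⟨z', c2, c3⟩ => ⟨z', c2, fun j hj => (c3 j hj).trans (c1 j hj)⟩)
    (fun x y c1 c2 => hcw x y c1 ▸ c2) Pr hPr
  simpa only [e] using this

end

lemma mass {S : Type} [Fintype S] (n Q deg : ℕ) (f : ℕ → ℕ → S) (P : ℕ → Prop) (Pr W : S → Prop)
    (h : ∀ c < n, cnt (range Q) (fun i => P i ∧ Pr (f c i)) = deg)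
    (hi : ∀ c < n, ∀ c' < n, ∀ i < Q, ∀ i' < Q, f c i = f c' i' → c = c' ∧ i = i')
    (hW : ∀ c < n, ∀ i < Q, Pr (f c i) → W (f c i)) : n * deg ≤ cnt univ W := by
  have e1 : cnt (univ ×ˢ range Q) (fun x : Fin n × ℕ => P x.2 ∧ Pr (f x.1 x.2)) = n * deg := by
    rw [cnt_fiber _ _ Prod.fst, sum_congr rfl (g := fun _ => deg)]
    · simp
    intro c _
    rw [← h c c.2]
    refine cnt_bij Prod.snd ?_ ?_ ?_
    · rintro ⟨c', i⟩ c1 ⟨c2, rfl⟩
      exact ⟨(mem_product.1 c1).2, c2⟩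
    · rintro ⟨c', i⟩ _ ⟨c'', i'⟩ _ ⟨_, rfl⟩ ⟨_, c3⟩ c4
      exact Prod.ext c3.symm c4
    · exact fun i c1 c2 => ⟨(c, i), mem_product.2 ⟨mem_univ _, c1⟩, ⟨c2, rfl⟩, rfl⟩
  rw [← e1]
  refine cnt_le_of_inj (fun x => f x.1 x.2) (fun x c1 c2 => ⟨mem_univ _, ?_⟩) ?_
  · exact hW _ x.1.2 _ (mem_range.1 (mem_product.1 c1).2) c2.2
  · intro x c1 y c2 _ _ c3
    have := hi _ x.1.2 _ y.1.2 _ (mem_range.1 (mem_product.1 c1).2) _
      (mem_range.1 (mem_product.1 c2).2) c3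
    exact Prod.ext (Fin.ext this.1) this.2

/-- The place `y` of lap `i` on a cycle of `Q` laps of length `L`. -/
def pt (Q L i y : ℕ) : ZMod (Q * L) := ((i * L + y : ℕ) : ZMod (Q * L))

/-- The lap of a point of the cycle. -/
def lap {M : ℕ} (L : ℕ) (z : ZMod M) : ℕ := z.val / L

/-- The place of a point of the cycle in its lap. -/
def plc {M : ℕ} (L : ℕ) (z : ZMod M) : ℕ := z.val % L

section
variable {Q L : ℕ} [NeZero (Q * L)]

lemma pt_val {i y : ℕ} (hi : i < Q) (hy : y < L) :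
    lap L (pt Q L i y) = i ∧ plc L (pt Q L i y) = y := by
  have h1 : i * L + y < Q * L := by
    have := Nat.mul_le_mul_right L (Nat.succ_le_of_lt hi)
    rw [Nat.succ_mul] at this
    omega
  rw [lap, plc, pt, ZMod.val_natCast, Nat.mod_eq_of_lt h1, mul_comm, Nat.mul_add_div (by omega),
    Nat.mul_add_mod, Nat.div_eq_of_lt hy, Nat.mod_eq_of_lt hy]
  exact ⟨rfl, rfl⟩

lemma pt_self (z : ZMod (Q * L)) : pt Q L (lap L z) (plc L z) = z := by
  rw [pt, lap, plc, Nat.div_add_mod', ZMod.natCast_zmod_val]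

lemma lap_lt (z : ZMod (Q * L)) : lap L z < Q ∧ plc L z < L := by
  have hL : 0 < L := Nat.pos_of_mul_pos_left (NeZero.pos (Q * L))
  exact ⟨(Nat.div_lt_iff_lt_mul hL).2 (ZMod.val_lt z), Nat.mod_lt _ hL⟩

omit [NeZero (Q * L)] in
lemma pt_succ (i y : ℕ) : pt Q L i (y + 1) = pt Q L i y + 1 := by
  rw [pt, pt, ← add_assoc, Nat.cast_succ]

omit [NeZero (Q * L)] in
lemma pt_lap (i : ℕ) : pt Q L (i + 1) 0 = pt Q L i L := by
  rw [pt, pt, Nat.succ_mul, add_zero]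

omit [NeZero (Q * L)] in
lemma pt_mod (i y : ℕ) : pt Q L (i % Q) y = pt Q L i y := by
  conv_rhs => rw [pt, ← Nat.div_add_mod i Q, add_mul, add_assoc, mul_right_comm, Nat.cast_add,
    Nat.cast_mul, ZMod.natCast_self, zero_mul, zero_add]
  rfl

lemma succ_val (z : ZMod (Q * L)) :
    (plc L z + 1 < L → lap L (z + 1) = lap L z ∧ plc L (z + 1) = plc L z + 1) ∧
      (plc L z + 1 = L → plc L (z + 1) = 0) := by
  have h := lap_lt z
  have e : z + 1 = pt Q L (lap L z) (plc L z + 1) := by rw [pt_succ, pt_self]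
  refine ⟨fun c => ?_, fun c => ?_⟩
  · rw [e]
    exact pt_val h.1 c
  · rw [e, c, ← pt_lap, ← pt_mod]
    exact (pt_val (Nat.mod_lt _ (Nat.zero_lt_of_lt h.1)) (Nat.zero_lt_of_lt h.2)).2

lemma interval (P : ℕ → Prop) (lo hi : ℕ) (h1 : lo ≤ hi) (h2 : hi < L) (Pr : ZMod (Q * L) → Prop)
    (h : cnt univ (fun z : ZMod (Q * L) =>
        (P (lap L z) ∧ lo ≤ plc L z ∧ plc L z ≤ hi) ∧ Pr z) =
      cnt univ (fun z : ZMod (Q * L) =>
        (P (lap L (z + 1)) ∧ lo ≤ plc L (z + 1) ∧ plc L (z + 1) ≤ hi) ∧ Pr z)) :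
    cnt (range Q) (fun i => P i ∧ Pr (pt Q L i hi)) =
      cnt (range Q) (fun i => P i ∧ Pr (pt Q L i lo - 1)) := by
  rw [cnt_split univ _ (fun z => plc L z = hi),
    cnt_split univ (fun z : ZMod (Q * L) =>
      (P (lap L (z + 1)) ∧ lo ≤ plc L (z + 1) ∧ plc L (z + 1) ≤ hi) ∧ Pr z)
      (fun z => plc L (z + 1) = lo)] at h
  have e1 : cnt univ (fun z : ZMod (Q * L) =>
      ((P (lap L z) ∧ lo ≤ plc L z ∧ plc L z ≤ hi) ∧ Pr z) ∧ ¬ plc L z = hi) =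
      cnt univ (fun z : ZMod (Q * L) =>
        ((P (lap L (z + 1)) ∧ lo ≤ plc L (z + 1) ∧ plc L (z + 1) ≤ hi) ∧ Pr z) ∧
          ¬ plc L (z + 1) = lo) := by
    refine cnt_congr fun z _ => ?_
    have a1 := succ_val z
    have a2 := (lap_lt z).2
    by_cases c : plc L z + 1 < L
    · rw [(a1.1 c).1, (a1.1 c).2]
      exact ⟨fun c' => ⟨⟨⟨c'.1.1.1, by omega, by omega⟩, c'.1.2⟩, by omega⟩,
        fun c' => ⟨⟨⟨c'.1.1.1, by omega, by omega⟩, c'.1.2⟩, by omega⟩⟩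
    · rw [a1.2 (by omega)]
      exact iff_of_false (fun c' => by omega) (fun c' => by omega)
  have e2 : cnt (range Q) (fun i => P i ∧ Pr (pt Q L i hi)) = cnt univ (fun z : ZMod (Q * L) =>
      ((P (lap L z) ∧ lo ≤ plc L z ∧ plc L z ≤ hi) ∧ Pr z) ∧ plc L z = hi) := by
    refine cnt_bij (fun i => pt Q L i hi) (fun i c1 c2 => ⟨mem_univ _, ?_⟩)
      (fun i c1 i' c2 _ _ c3 => ?_) (fun z _ c => ⟨lap L z, mem_range.2 (lap_lt z).1, ?_⟩)
    · have := pt_val (mem_range.1 c1) h2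
      rw [this.1, this.2]
      exact ⟨⟨⟨c2.1, h1, le_rfl⟩, c2.2⟩, rfl⟩
    · rw [← (pt_val (mem_range.1 c1) h2).1, ← (pt_val (mem_range.1 c2) h2).1, c3]
    · rw [← c.2, pt_self]
      exact ⟨⟨c.1.1.1, c.1.2⟩, rfl⟩
  have e3 : cnt (range Q) (fun i => P i ∧ Pr (pt Q L i lo - 1)) =
      cnt univ (fun z : ZMod (Q * L) =>
        ((P (lap L (z + 1)) ∧ lo ≤ plc L (z + 1) ∧ plc L (z + 1) ≤ hi) ∧ Pr z) ∧
          plc L (z + 1) = lo) := by
    have h3 : lo < L := by omega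
    refine cnt_bij (fun i => pt Q L i lo - 1) (fun i c1 c2 => ⟨mem_univ _, ?_⟩)
      (fun i c1 i' c2 _ _ c3 => ?_)
      (fun z _ c => ⟨lap L (z + 1), mem_range.2 (lap_lt _).1, ?_⟩)
    · have := pt_val (mem_range.1 c1) h3
      rw [sub_add_cancel, this.1, this.2]
      exact ⟨⟨⟨c2.1, le_rfl, h1⟩, c2.2⟩, rfl⟩
    · rw [← (pt_val (mem_range.1 c1) h3).1, ← (pt_val (mem_range.1 c2) h3).1, sub_left_inj.1 c3]
    · rw [← c.2, pt_self, add_sub_cancel_right]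
      exact ⟨⟨c.1.1.1, c.1.2⟩, rfl⟩
  omega

lemma kept (E : ZMod (Q * L) → ZMod (Q * L) → Prop) (hE : ∀ z, E z z) {i lo hi : ℕ} (h0 : i < Q)
    (h1 : lo ≤ hi) (h2 : hi < L)
    (h : cnt univ (fun z : ZMod (Q * L) =>
        (lap L z = i ∧ lo ≤ plc L z ∧ plc L z ≤ hi) ∧ E z (pt Q L i lo - 1)) =
      cnt univ (fun z : ZMod (Q * L) =>
        (lap L (z + 1) = i ∧ lo ≤ plc L (z + 1) ∧ plc L (z + 1) ≤ hi) ∧
          E z (pt Q L i lo - 1))) :
    E (pt Q L i hi) (pt Q L i lo - 1) := by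
  have a1 := interval (fun x => x = i) lo hi h1 h2 (fun z => E z (pt Q L i lo - 1)) h
  have a2 := cnt_pos (P := fun x => x = i ∧ E (pt Q L x lo - 1) (pt Q L i lo - 1)) i
    (mem_range.2 h0) ⟨rfl, hE _⟩
  rw [← a1] at a2
  obtain ⟨x, _, rfl, c⟩ := exists_of_cnt_pos a2
  exact c

end

lemma const_of_bal {M : ℕ} [NeZero M] {l : ZMod M → ℕ → Fin k} {lo hi : ℕ}
    (h : ∀ y : ZMod M, cnt univ (fun z => z = y + 1 ∧ Same l lo hi z y) =
      cnt univ (fun z => z + 1 = y + 1 ∧ Same l lo hi z y)) (z z' : ZMod M) :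
    Same l lo hi z z' := by
  have step : ∀ y : ZMod M, Same l lo hi (y + 1) y := by
    intro y
    have a2 := cnt_pos (P := fun z => z + 1 = y + 1 ∧ Same l lo hi z y) y (mem_univ _)
      ⟨rfl, Same.refl _ _ _ _⟩
    rw [← h] at a2
    obtain ⟨x, _, rfl, c⟩ := exists_of_cnt_pos a2
    exact c
  have all : ∀ n : ℕ, Same l lo hi (n : ZMod M) 0 := by
    intro n
    induction n with
    | zero => rw [Nat.cast_zero]; exact Same.refl _ _ _ _
    | succ n ih => rw [Nat.cast_succ]; exact (step _).trans ih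
  rw [← ZMod.natCast_zmod_val z, ← ZMod.natCast_zmod_val z']
  exact (all _).trans (all _).symm

end Pool.Agent.Lib.MP_ec5f85_co
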