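import Pool.Agent.Lib.MP_ec5f85_co.Bridge
import Pool.Agent.Lib.MP_ec5f85_co.Comb

set_option autoImplicit false

/-! Masks made of atoms and a few exchanged items, and what a routing gives on these items. -/

namespace Pool.Agent.Lib.MP_ec5f85_co

open Finset

variable {k : ℕ}

/-- Two words agree at the places from `lo` up to but not including `hi`. -/
def Same {ι : Type} (l : ι → ℕ → Fin k) (lo hi : ℕ) (e e' : ι) : Prop :=
  ∀ u, lo ≤ u → u < hi → l e u = l e' u

lemma win_count {ι : Type} [Fintype ι] {N s : ℕ} {l : ι → ℕ → Fin k}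
    (hc : Fintype.card ι = k ^ (N + 1)) (h : Inj l N s) (lo len : ℕ) (h1 : s ≤ lo)
    (h2 : lo + len ≤ s + N + 1) (Z : ι → Prop)
    (hZ : ∀ e e', (∀ u, s ≤ u → u ≤ s + N → (u < lo ∨ lo + len ≤ u) → l e u = l e' u) →
      Z e → Z e') (e0 : ι) :
    k ^ len * cnt univ (fun e => Z e ∧ Same l lo (lo + len) e e0) = cnt univ Z := by
  let f : ι → Fin len → Fin k := fun e j => l e (lo + j)
  have key : ∀ w w' : Fin len → Fin k, cnt univ (fun e => Z e ∧ f e = w) ≤
      cnt univ (fun e => Z e ∧ f e = w') := by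
    intro w w'
    choose mv hmv using fun e => h.surj hc fun j =>
      if c : lo ≤ s + j ∧ s + j < lo + len then w' ⟨s + j - lo, by omega⟩ else l e (s + j)
    have out : ∀ e u, s ≤ u → u ≤ s + N → (u < lo ∨ lo + len ≤ u) → l (mv e) u = l e u := by
      intro e u c1 c2 c3
      have := hmv e (u - s) (by omega)
      rw [dif_neg (by omega), Nat.add_sub_cancel' c1] at this
      exact this
    refine cnt_le_of_inj mv (fun e _ he => ⟨mem_univ _, ?_, ?_⟩) (fun e _ e' _ he he' hee => ?_)
    · exact hZ e _ (fun u c1 c2 c3 => (out e u c1 c2 c3).symm) he.1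
    · funext j
      have hj := j.2
      have := hmv e (lo + j - s) (by omega)
      rw [dif_pos (by omega)] at this
      have e1 : s + (lo + j - s) = lo + j := by omega
      simp only [e1, Nat.add_sub_cancel_left] at this
      exact this
    · refine h e e' fun j hj => ?_
      by_cases c : lo ≤ s + j ∧ s + j < lo + len
      · have := congrFun (he.2.trans he'.2.symm) ⟨s + j - lo, by omega⟩
        have e1 : lo + (s + j - lo) = s + j := by omega
        simpa only [f, e1] using this
      · rw [← out e _ (by omega) (by omega) (by omega), ← out e' _ (by omega) (by omega) (by omega),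
          hee]
  have e1 : ∀ w, cnt univ (fun e => Z e ∧ f e = w) =
      cnt univ (fun e => Z e ∧ Same l lo (lo + len) e e0) := by
    intro w
    rw [le_antisymm (key w (f e0)) (key (f e0) w)]
    refine cnt_congr fun e _ => and_congr_right fun _ => ⟨fun c u c1 c2 => ?_, fun c => ?_⟩
    · have := congrFun c ⟨u - lo, by omega⟩
      have e1 : lo + (u - lo) = u := by omega
      simpa only [f, e1] using this
    · funext j
      exact c _ (by omega) (by have := j.2; omega)
  rw [cnt_fiber univ Z f, sum_congr rfl fun w _ => e1 w]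
  simp

lemma cnt_prod {T U : Type} [Fintype T] [Fintype U] (R : T → Prop) :
    cnt univ (fun e : T × U => R e.1) = cnt univ R * Fintype.card U := by
  classical
  unfold cnt
  rw [← card_univ, ← card_product]
  refine congrArg Finset.card ?_
  ext x
  simp only [mem_filter, mem_univ, true_and, mem_product, and_true]

lemma cnt_equiv {T : Type} [Fintype T] (g : T ≃ T) (R : T → Prop) :
    cnt univ (fun t => R (g t)) = cnt univ R :=
  cnt_bij g (fun _ _ h => ⟨mem_univ _, h⟩) (fun _ _ _ _ _ _ h => g.injective h)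
    fun y _ h => ⟨g.symm y, mem_univ _, by simpa using h, by simp⟩

/-- The predicate depends only on the first `t` letters of the word. -/
def Dep {T : Type} (w : T → ℕ → Fin k) (t : ℕ) (R : T → Prop) : Prop :=
  ∀ x y, (∀ j < t, w x j = w y j) → R x → R y

/-- What a routing through `2 * N + 1 + d` levels gives on the exchanged items. -/
def Sys {T S : Type} [Fintype T] [Fintype S] (rw cw : T → ℕ → Fin k) (pos : S → T) (nxt : S → S)
    (p N d : ℕ) (l : S → ℕ → Fin k) : Prop :=
  ∀ s t, s ≤ p → t ≤ p → ∀ (z0 : S) (R C : T → Prop), Dep rw t R → Dep cw s C →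
    ((∀ x, C x → R x) → ∀ m, cnt univ R ≤ cnt univ C + m * k ^ (p - t) →
      cnt univ (fun z => R (pos z) ∧ Same l (N + d + s) (2 * N + 1 - t) z z0) ≤
        cnt univ (fun z => C (pos (nxt z)) ∧ Same l (N + d + s) (2 * N + 1 - t) z z0) +
          m * k ^ (d + s)) ∧
    ((∀ x, R x → C x) → ∀ m, cnt univ C ≤ cnt univ R + m * k ^ (p - s) →
      cnt univ (fun z => C (pos (nxt z)) ∧ Same l (N + d + s) (2 * N + 1 - t) z z0) ≤
        cnt univ (fun z => R (pos z) ∧ Same l (N + d + s) (2 * N + 1 - t) z z0) +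
          m * k ^ (d + t))

theorem phys [NeZero k] {T S : Type} [Fintype T] [Fintype S] (rw cw : T → ℕ → Fin k)
    (pos : S → T) (nxt : S ≃ S) (p r d : ℕ) (hT : Fintype.card T = k ^ p)
    (hrw : ∀ x y, (∀ j < p, rw x j = rw y j) → x = y)
    (hcw : ∀ x y, (∀ j < p, cw x j = cw y j) → x = y) (hpos : Function.Injective pos)
    (hr : p + d ≤ r + 1) (hp : 1 ≤ p) (h : Rearrangeable k (p + r + 1) (2 * (p + r) + 1 + d)) :
    ∃ l, Sys rw cw pos nxt p (p + r) d l := by
  classical
  let E := T × (Fin r → Fin k) × Fin k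
  have hU : Fintype.card ((Fin r → Fin k) × Fin k) = k ^ (r + 1) := by simp [pow_succ]
  have hc : Fintype.card E = k ^ (p + r + 1) := by
    rw [Fintype.card_prod, hT, hU, ← pow_add, add_assoc]
  let pt : S ↪ E := ⟨fun z => (pos z, 0, 0), fun z z' c => hpos (congrArg Prod.fst c)⟩
  let cyc : E ≃ E := Equiv.Perm.viaEmbedding nxt pt
  let a : E → ℕ → Fin k := fun e j => if c : j < r then e.2.1 ⟨j, c⟩ else rw e.1 (p + r - 1 - j)
  let b0 : E → ℕ → Fin k := fun e j =>
    if j < p then cw e.1 j else if c : j - p < r then e.2.1 ⟨j - p, c⟩ else 0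
  have ha : Fib a (p + r) := by
    refine reg_of_inj hc _ (fun e => e.2.2) fun e e' c1 c2 => Prod.ext ?_ (Prod.ext ?_ c2)
    · refine hrw _ _ fun j hj => ?_
      have := congrFun c1 ⟨p + r - 1 - j, by omega⟩
      have e1 : ¬ p + r - 1 - j < r := by omega
      have e2 : p + r - 1 - (p + r - 1 - j) = j := by omega
      simpa only [a, e1, dif_neg, not_false_eq_true, e2] using this
    · funext j
      have := congrFun c1 ⟨j, by have := j.2; omega⟩
      simpa only [a, j.2, dif_pos] using this
  have hb : Fib (fun e => b0 (cyc e)) (p + r) := by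
    refine reg_of_inj hc _ (fun e => (cyc e).2.2) fun e e' c1 c2 =>
      cyc.injective (Prod.ext ?_ (Prod.ext ?_ c2))
    · refine hcw _ _ fun j hj => ?_
      have := congrFun c1 ⟨j, by omega⟩
      simpa only [b0, hj, if_true] using this
    · funext j
      have := congrFun c1 ⟨p + j, by have := j.2; omega⟩
      have e1 : ¬ p + j < p := by omega
      simpa only [b0, e1, if_false, Nat.add_sub_cancel_left, j.2, dif_pos] using this
  obtain ⟨l, hl1, hl2, hl3⟩ := route_of_rearr (n := p + r + 1) (by omega) h E hc a _ ha hb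
  simp only [Nat.add_sub_cancel] at hl1 hl2 hl3
  refine ⟨fun z => l (pt z), fun s t hs ht z0 R C hR hC => ?_⟩
  obtain ⟨len, hlen⟩ : ∃ len, 2 * (p + r) + 1 - t = p + r + d + s + len :=
    ⟨p + r + 1 - d - s - t, by omega⟩
  rw [hlen]
  let W : E → Prop := fun e => Same l (p + r + d + s) (p + r + d + s + len) e (pt z0)
  have cA : k ^ len * cnt univ (fun e : E => R e.1 ∧ W e) = cnt univ R * k ^ (r + 1) := by
    rw [← hU, ← cnt_prod]
    refine win_count hc (hl3 (p + r - t) (by omega)) _ len (by omega) (by omega) _ ?_ _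
    intro e e' c
    refine hR _ _ fun j hj => ?_
    have := c (p + r - 1 - j) (by omega) (by omega) (by omega)
    rw [hl1 _ _ (by omega), hl1 _ _ (by omega)] at this
    have e1 : ¬ p + r - 1 - j < r := by omega
    have e2 : p + r - 1 - (p + r - 1 - j) = j := by omega
    simpa only [a, e1, dif_neg, not_false_eq_true, e2] using this
  have cB : k ^ len * cnt univ (fun e : E => C (cyc e).1 ∧ W e) = cnt univ C * k ^ (r + 1) := by
    rw [← hU, ← cnt_prod, ← cnt_equiv cyc (fun e : E => C e.1)]
    refine win_count hc (hl3 (p + r + d + s) (by omega)) _ len le_rfl (by omega) _ ?_ _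
    intro e e' c
    refine hC _ _ fun j hj => ?_
    have := c (2 * (p + r) + 1 + d + j) (by omega) (by omega) (by omega)
    rw [hl2 _ _ (by omega), hl2 _ _ (by omega)] at this
    have e1 : j < p := by omega
    simpa only [b0, e1, if_true] using this
  have sA : cnt univ (fun e : E => R e.1 ∧ W e) =
      cnt univ (fun z => R (pos z) ∧ W (pt z)) +
        cnt univ (fun e : E => (R e.1 ∧ W e) ∧ ¬ e ∈ Set.range pt) := by
    rw [cnt_split univ _ (fun e => e ∈ Set.range pt)]
    refine congrArg (· + _) (cnt_bij pt (fun z _ c => ⟨mem_univ _, c, z, rfl⟩)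
      (fun _ _ _ _ _ _ c => pt.injective c) ?_).symm
    rintro _ _ ⟨c, z, rfl⟩
    exact ⟨z, mem_univ _, c, rfl⟩
  have sB : cnt univ (fun e : E => C (cyc e).1 ∧ W e) =
      cnt univ (fun z => C (pos (nxt z)) ∧ W (pt z)) +
        cnt univ (fun e : E => (C e.1 ∧ W e) ∧ ¬ e ∈ Set.range pt) := by
    have e1 : ∀ z, cyc (pt z) = pt (nxt z) := fun z => Equiv.Perm.viaEmbedding_apply nxt pt z
    rw [cnt_split univ _ (fun e => e ∈ Set.range pt)]
    refine congrArg₂ (· + ·) (Eq.symm ?_) (cnt_congr fun e _ => ?_)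
    · refine cnt_bij pt (fun z _ c => ⟨mem_univ _, ?_, z, rfl⟩)
        (fun _ _ _ _ _ _ c => pt.injective c) ?_
      · rw [e1]
        exact c
      · rintro _ _ ⟨c, z, rfl⟩
        rw [e1] at c
        exact ⟨z, mem_univ _, c, rfl⟩
    · refine and_congr_left fun c => ?_
      have e2 : cyc e = e := Equiv.Perm.viaEmbedding_apply_of_notMem nxt pt e c
      rw [e2]
  have hk : 0 < k ^ len := Nat.pow_pos (NeZero.pos k)
  refine ⟨fun hCR m hm => ?_, fun hRC m hm => ?_⟩
  · have e1 : cnt univ (fun e : E => (C e.1 ∧ W e) ∧ ¬ e ∈ Set.range pt) ≤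
        cnt univ (fun e : E => (R e.1 ∧ W e) ∧ ¬ e ∈ Set.range pt) :=
      cnt_mono fun e _ c => ⟨⟨hCR _ c.1.1, c.1.2⟩, c.2⟩
    have e2 : k ^ (p - t) * k ^ (r + 1) = k ^ len * k ^ (d + s) := by
      rw [← pow_add, ← pow_add]
      congr 1
      omega
    have e3 : cnt univ (fun e : E => R e.1 ∧ W e) ≤
        cnt univ (fun e : E => C (cyc e).1 ∧ W e) + m * k ^ (d + s) := by
      refine Nat.le_of_mul_le_mul_left ?_ hk
      rw [mul_add, cA, cB, mul_left_comm, ← e2, ← mul_assoc, ← add_mul]
      exact Nat.mul_le_mul_right _ hm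
    change cnt univ (fun z => R (pos z) ∧ W (pt z)) ≤
      cnt univ (fun z => C (pos (nxt z)) ∧ W (pt z)) + _
    omega
  · have e1 : cnt univ (fun e : E => (R e.1 ∧ W e) ∧ ¬ e ∈ Set.range pt) ≤
        cnt univ (fun e : E => (C e.1 ∧ W e) ∧ ¬ e ∈ Set.range pt) :=
      cnt_mono fun e _ c => ⟨⟨hRC _ c.1.1, c.1.2⟩, c.2⟩
    have e2 : k ^ (p - s) * k ^ (r + 1) = k ^ len * k ^ (d + t) := by
      rw [← pow_add, ← pow_add]
      congr 1
      omega
    have e3 : cnt univ (fun e : E => C (cyc e).1 ∧ W e) ≤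
        cnt univ (fun e : E => R e.1 ∧ W e) + m * k ^ (d + t) := by
      refine Nat.le_of_mul_le_mul_left ?_ hk
      rw [mul_add, cA, cB, mul_left_comm, ← e2, ← mul_assoc, ← add_mul]
      exact Nat.mul_le_mul_right _ hm
    change cnt univ (fun z => C (pos (nxt z)) ∧ W (pt z)) ≤
      cnt univ (fun z => R (pos z) ∧ W (pt z)) + _
    omega

end Pool.Agent.Lib.MP_ec5f85_co
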