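import Pool.Agent.Lib.MP_ec5f85_co.Konig

set_option autoImplicit false

/-! Routings of shuffle-exchange graphs as words: monotonicity and the upper bound. -/

namespace Pool.Agent.Lib.MP_ec5f85_co

open Finset

variable {ι : Type} [Fintype ι] {k : ℕ}

/-- The window of `N + 1` letters starting at `s` determines the item. -/
def Inj (l : ι → ℕ → Fin k) (N s : ℕ) : Prop :=
  ∀ e e', (∀ j ≤ N, l e (s + j) = l e' (s + j)) → e = e'

/-- The first `N` letters cut the items into classes of size `k`. -/
def Fib (a : ι → ℕ → Fin k) (N : ℕ) : Prop :=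
  Reg univ (fun e => fun j : Fin N => a e j) k

/-- A routing in word form. -/
def Route (a b : ι → ℕ → Fin k) (N m : ℕ) : Prop :=
  ∃ l : ι → ℕ → Fin k, (∀ e, ∀ j < N, l e j = a e j) ∧ (∀ e, ∀ j < N, l e (m + j) = b e j) ∧
    ∀ s < m, Inj l N s

lemma bij_of_inj {N : ℕ} (hc : Fintype.card ι = k ^ (N + 1)) (P : ι → Fin N → Fin k)
    (d : ι → Fin k) (h : ∀ e e', P e = P e' → d e = d e' → e = e') :
    Function.Bijective fun e => (P e, d e) := by
  rw [Fintype.bijective_iff_injective_and_card]
  refine ⟨fun e e' he => h e e' (congrArg Prod.fst he) (congrArg Prod.snd he), ?_⟩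
  simp [hc, pow_succ]

lemma card_fib_of_inj {N : ℕ} (hc : Fintype.card ι = k ^ (N + 1)) (P : ι → Fin N → Fin k)
    (d : ι → Fin k) (h : ∀ e e', P e = P e' → d e = d e' → e = e') (w : Fin N → Fin k) :
    (univ.filter fun e => P e = w).card = k := by
  have hb := bij_of_inj hc P d h
  conv_rhs => rw [← Fintype.card_fin k, ← card_univ]
  refine card_bij (fun e _ => d e) (fun _ _ => mem_univ _) ?_ ?_
  · intro e he e' he' hd
    exact h e e' ((mem_filter.1 he).2.trans (mem_filter.1 he').2.symm) hd
  · intro v _
    obtain ⟨e, he⟩ := hb.2 (w, v)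
    exact ⟨e, mem_filter.2 ⟨mem_univ _, congrArg Prod.fst he⟩, congrArg Prod.snd he⟩

lemma reg_of_inj {N : ℕ} (hc : Fintype.card ι = k ^ (N + 1)) (P : ι → Fin N → Fin k)
    (d : ι → Fin k) (h : ∀ e e', P e = P e' → d e = d e' → e = e') : Reg univ P k :=
  fun e _ => card_fib_of_inj hc P d h (P e)

lemma route_succ {N m : ℕ} (hN : 1 ≤ N) (hc : Fintype.card ι = k ^ (N + 1))
    (h : ∀ a b : ι → ℕ → Fin k, Fib a N → Fib b N → Route a b N m)
    (a b : ι → ℕ → Fin k) (ha : Fib a N) (hb : Fib b N) : Route a b N (m + 1) := by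
  obtain ⟨z, hz⟩ := konig _ _ k ha ha
  let a' : ι → ℕ → Fin k := fun e j => if j + 1 < N then a e (j + 1) else z e
  have key : ∀ e e', a e 0 = a e' 0 → (∀ j < N, a' e j = a' e' j) → e = e' := by
    intro e e' h0 h1
    refine hz e e' (Or.inl (funext fun j => ?_)) ?_
    · obtain ⟨j, hj⟩ := j
      cases j with
      | zero => exact h0
      | succ j => simpa [a', hj] using h1 j (by omega)
    · have := h1 (N - 1) (by omega)
      have h2 : ¬ (N - 1 + 1 < N) := by omega
      simpa [a', h2] using this
  have ha' : Fib a' N := reg_of_inj hc _ (fun e => a e 0) fun e e' h1 h0 =>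
    key e e' h0 fun j hj => congrFun h1 ⟨j, hj⟩
  obtain ⟨l, hl1, hl2, hl3⟩ := h a' b ha' hb
  refine ⟨fun e t => if t = 0 then a e 0 else l e (t - 1), ?_, ?_, ?_⟩
  · intro e j hj
    by_cases h0 : j = 0
    · simp [h0]
    · simp only [h0, if_false]
      rw [hl1 e (j - 1) (by omega)]
      have : j - 1 + 1 = j := by omega
      simp [a', this, hj]
  · intro e j hj
    have : m + 1 + j - 1 = m + j := by omega
    simp [this, hl2 e j hj]
  · intro s hs e e' hee
    by_cases h0 : s = 0
    · subst h0
      refine key e e' (by simpa using hee 0 (by omega)) fun j hj => ?_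
      have := hee (j + 1) (by omega)
      simpa [hl1 _ j hj] using this
    · refine hl3 (s - 1) (by omega) e e' fun j hj => ?_
      have := hee j hj
      have h1 : s + j ≠ 0 := by omega
      have h2 : s + j - 1 = s - 1 + j := by omega
      simpa only [h1, if_false, h2] using this

/-- The letters `u 0, …, u i` and `c i, …, c (N-1)` determine the item. -/
def J (c u : ι → ℕ → Fin k) (N i : ℕ) : Prop :=
  ∀ e e', (∀ j ≤ i, u e j = u e' j) → (∀ j, i ≤ j → j < N → c e j = c e' j) → e = e'

lemma reg_step {N i : ℕ} (hc : Fintype.card ι = k ^ (N + 1)) (c u : ι → ℕ → Fin k)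
    (h0 : Fib c N) (hi : i < N) (h : ∀ i' < i, J c u N i') :
    Reg univ (fun e => fun j : Fin N => if (j : ℕ) < i then u e j else c e j) k := by
  cases i with
  | zero => simpa [Fib] using h0
  | succ i =>
    refine reg_of_inj hc _ (fun e => c e i) fun e e' h1 h2 => h i (Nat.lt_succ_self i) e e' ?_ ?_
    · intro j hj
      have := congrFun h1 ⟨j, by omega⟩
      simpa [Nat.lt_succ_of_le hj] using this
    · intro j hj hj'
      by_cases hji : j = i
      · rw [hji]; exact h2
      · have := congrFun h1 ⟨j, hj'⟩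
        have h3 : ¬ j < i + 1 := by omega
        simpa [h3] using this

omit [Fintype ι] in
lemma J_step {N i : ℕ} (c u : ι → ℕ → Fin k) (v : ι → Fin k)
    (h : ∀ i' < i, J c u N i')
    (hv : ∀ e e', (fun j : Fin N => if (j : ℕ) < i then u e j else c e j) =
      (fun j : Fin N => if (j : ℕ) < i then u e' j else c e' j) → v e = v e' → e = e') :
    ∀ i' < i + 1, J c (fun e j => if j = i then v e else u e j) N i' := by
  intro i' hi' e e' h1 h2
  by_cases hii : i' = i
  · subst hii
    refine hv e e' (funext fun j => ?_) (by simpa using h1 i' le_rfl)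
    by_cases hj : (j : ℕ) < i'
    · have := h1 j hj.le
      simpa [hj, hj.ne] using this
    · simpa [hj] using h2 j (by omega) j.2
  · refine h i' (by omega) e e' (fun j hj => ?_) h2
    have := h1 j hj
    have h3 : j ≠ i := by omega
    simpa [h3] using this

lemma benes [NeZero k] {N : ℕ} (hc : Fintype.card ι = k ^ (N + 1)) (c c' : ι → ℕ → Fin k)
    (h : Fib c N) (h' : Fib c' N) :
    ∀ i ≤ N, ∃ u : ι → ℕ → Fin k, (∀ i' < i, J c u N i') ∧ ∀ i' < i, J c' u N i' := by
  intro i
  induction i with
  | zero => exact fun _ => ⟨fun _ _ => 0, by simp, by simp⟩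
  | succ i ih =>
    intro hi
    obtain ⟨u, h1, h2⟩ := ih (by omega)
    obtain ⟨v, hv⟩ := konig _ _ k (reg_step hc c u h hi h1) (reg_step hc c' u h' hi h2)
    exact ⟨_, J_step c u v h1 fun e e' he => hv e e' (Or.inl he),
      J_step c' u v h2 fun e e' he => hv e e' (Or.inr he)⟩

lemma Fib.rev {N : ℕ} {b : ι → ℕ → Fin k} (hb : Fib b N) :
    Fib (fun e j => b e (N - 1 - j)) N := by
  intro e he
  refine Eq.trans (congrArg Finset.card ?_) (hb e he)
  ext e'
  simp only [mem_filter, mem_univ, true_and, funext_iff]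
  constructor
  · intro h j
    have := h ⟨N - 1 - j, by omega⟩
    have h1 : N - 1 - (N - 1 - (j : ℕ)) = j := by omega
    simpa [h1] using this
  · intro h j
    exact h ⟨N - 1 - j, by omega⟩

lemma route_upper [NeZero k] {N : ℕ} (hN : 1 ≤ N) (hc : Fintype.card ι = k ^ (N + 1))
    (a b : ι → ℕ → Fin k) (ha : Fib a N) (hb : Fib b N) : Route a b N (3 * N - 1) := by
  obtain ⟨u, hu, hu'⟩ := benes hc a _ ha hb.rev N le_rfl
  let f : ι → ℕ → Fin k := fun e i => if i = 0 then b e 0 else u e (i - 1)
  let g : ι → ℕ → Fin k := fun e i => f e (N - 1 - i) + if i < N - 1 - i then f e i else 0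
  let l : ι → ℕ → Fin k := fun e t => if t < N then a e t else if t < 2 * N then u e (t - N)
    else if t < 3 * N - 1 then g e (t - 2 * N) else b e (t - (3 * N - 1))
  have la : ∀ e t, t < N → l e t = a e t := fun e t h => by simp [l, h]
  have lu : ∀ e t, t < N → l e (N + t) = u e t := fun e t h => by
    have h1 : N + t < 2 * N := by omega
    simp [l, h1]
  have lg : ∀ e t, t < N - 1 → l e (2 * N + t) = g e t := fun e t h => by
    have h1 : ¬ 2 * N + t < N := by omega
    have h2 : 2 * N + t < 3 * N - 1 := by omega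
    simp [l, h1, h2]
  have lb : ∀ e t, l e (3 * N - 1 + t) = b e t := fun e t => by
    have h1 : ¬ 3 * N - 1 + t < N := by omega
    have h2 : ¬ 3 * N - 1 + t < 2 * N := by omega
    simp [l, h1, h2]
  have fu : ∀ e i, f e (i + 1) = u e i := fun e i => by simp [f]
  have f0 : ∀ e, f e 0 = b e 0 := fun e => by simp [f]
  refine ⟨l, la, fun e j _ => lb e j, fun s hs e e' h => ?_⟩
  have hw : ∀ t, s ≤ t → t ≤ s + N → l e t = l e' t := fun t h1 h2 => by
    have := h (t - s) (by omega)
    rwa [Nat.add_sub_cancel' h1] at this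
  have g1 : ∀ i, g e i = g e' i → ¬ i < N - 1 - i → f e (N - 1 - i) = f e' (N - 1 - i) := by
    intro i hg hi
    simpa [g, hi] using hg
  have g2 : ∀ i, g e i = g e' i → i < N - 1 - i →
      (f e (N - 1 - i) = f e' (N - 1 - i) ↔ f e i = f e' i) := by
    intro i hg hi
    simp only [g, hi, if_true] at hg
    constructor
    · intro h1
      rw [h1] at hg
      exact add_left_cancel hg
    · intro h1
      rw [h1] at hg
      exact add_right_cancel hg
  by_cases h1 : s < N
  · refine hu s h1 e e' (fun j hj => ?_) (fun j hj hj' => ?_)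
    · rw [← lu e j (by omega), ← lu e' j (by omega)]
      exact hw _ (by omega) (by omega)
    · rw [← la e j hj', ← la e' j hj']
      exact hw _ hj (by omega)
  by_cases h2 : s < 2 * N - 1
  · have hf : ∀ i, s - N < i → i ≤ N → f e i = f e' i := by
      intro i hi hi'
      obtain ⟨i, rfl⟩ : ∃ j, i = j + 1 := ⟨i - 1, by omega⟩
      rw [fu, fu, ← lu e i (by omega), ← lu e' i (by omega)]
      exact hw _ (by omega) (by omega)
    have hg : ∀ i ≤ s - N, g e i = g e' i := by
      intro i hi
      rw [← lg e i (by omega), ← lg e' i (by omega)]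
      exact hw _ (by omega) (by omega)
    have hf' : ∀ i ≤ N, f e i = f e' i := by
      intro i hi
      by_cases h3 : s - N < i
      · exact hf i h3 hi
      by_cases h4 : s - N < N - 1 - i
      · exact (g2 i (hg i (by omega)) (by omega)).1 (hf _ h4 (by omega))
      have h5 : N - 1 - (N - 1 - i) = i := by omega
      by_cases h6 : N - 1 - i < i
      · have := (g2 (N - 1 - i) (hg _ (by omega)) (by omega)).2
          (g1 i (hg i (by omega)) (by omega))
        rwa [h5] at this
      · have := g1 (N - 1 - i) (hg _ (by omega)) (by omega)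
        rwa [h5] at this
    refine hu' (N - 1) (by omega) e e' (fun j hj => ?_) (fun j hj hj' => ?_)
    · rw [← fu, ← fu]
      exact hf' _ (by omega)
    · have h5 : N - 1 - j = 0 := by omega
      simp only [h5]
      rw [← f0, ← f0]
      exact hf' _ (by omega)
  · have hb' : ∀ j ≤ s + 1 - 2 * N, b e j = b e' j := by
      intro j hj
      rw [← lb, ← lb]
      exact hw _ (by omega) (by omega)
    have hf : ∀ i ≤ 3 * N - 1 - s, f e i = f e' i := by
      intro i
      induction i using Nat.strong_induction_on with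
      | _ i ih =>
        intro hi
        by_cases h3 : i = 0
        · rw [h3, f0, f0]
          exact hb' 0 (by omega)
        by_cases h4 : i = N
        · obtain ⟨j, rfl⟩ : ∃ j, i = j + 1 := ⟨i - 1, by omega⟩
          rw [fu, fu, ← lu e j (by omega), ← lu e' j (by omega)]
          exact hw _ (by omega) (by omega)
        have hg : g e (N - 1 - i) = g e' (N - 1 - i) := by
          rw [← lg e _ (by omega), ← lg e' _ (by omega)]
          exact hw _ (by omega) (by omega)
        have h5 : N - 1 - (N - 1 - i) = i := by omega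
        by_cases h6 : N - 1 - i < i
        · have := (g2 _ hg (by omega)).2 (ih _ h6 (by omega))
          rwa [h5] at this
        · have := g1 _ hg (by omega)
          rwa [h5] at this
    refine hu' (3 * N - 2 - s) (by omega) e e' (fun j hj => ?_) (fun j hj hj' => ?_)
    · rw [← fu, ← fu]
      exact hf _ (by omega)
    · exact hb' _ (by omega)

end Pool.Agent.Lib.MP_ec5f85_co
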